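import Mathlib

/-!
# Average finite `π`-adic complexity of sequences over `Z[π]`

`R` is a domain with `ℤ`-basis `1, π, …, π^(d-1)`, where `π² = -N` (case (i), `d = 2`) or
`π^d = N` (case (ii)).  The objects of the statement are

* `phi1`, `phi2` : the size functions of the two cases;
* `IsNumber N π s f g` : the `π`-adic number `∑ sᵢ πⁱ` equals `f / g`;
* `InvMod π g` : `g` is invertible modulo `π`;
* `sizes N π φ s` : the sizes `max (φ f) (φ g)` of the AFSRs whose output is `s`;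
* `finComplexity N π φ a` : the complexity of the finite sequence `a`;
* `E N π φ n` : the average complexity of the `N ^ n` sequences of length `n`.

The proof: for `a` in `R / π^n` consider the lattice of pairs `(f, g)` with `f = g a`.  Its least
nonzero vector has height `X(a)`, and counting shows that `X(a)^(2d) ≤ V` holds for at most
`O(V)` of the `a`.  This gives the lower bound.  For the upper bound, a pigeonhole argument on the
line of the shortest vector (in well conditioned coordinates, chosen by a maximal minor) gives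
`W(a)^d X(a)^d = O(N^n)` for the least `W(a)` such that the vectors of height `≤ W(a)` are not all
proportional, and two non proportional vectors of height `≤ W` can be combined to a vector of
height `O(W)` whose second coordinate is `1` modulo `π`.
-/

namespace Pool.Agent.Results.MP_cc6759_lc.AverageHalf

open Module

section Height

variable {R : Type*} [CommRing R] {d : ℕ} (b : Basis (Fin d) ℤ R)

/-- sup height of an element in the coordinates of the basis. -/
noncomputable def ht (x : R) : ℕ := Finset.univ.sup (fun i => (b.repr x i).natAbs)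

lemma ht_le_iff (x : R) (T : ℕ) : ht b x ≤ T ↔ ∀ i, (b.repr x i).natAbs ≤ T := by
  unfold ht
  rw [Finset.sup_le_iff]
  simp

lemma coord_le (x : R) (i : Fin d) : (b.repr x i).natAbs ≤ ht b x :=
  (ht_le_iff b x _).1 le_rfl i

lemma ht_zero : ht b 0 = 0 := by
  have : ht b 0 ≤ 0 := by
    rw [ht_le_iff]; intro i; simp
  omega

lemma ht_eq_zero {x : R} (h : ht b x = 0) : x = 0 := by
  apply b.ext_elem
  intro i
  have := coord_le b x i
  rw [h] at this
  have h2 : b.repr x i = 0 := by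
    have : (b.repr x i).natAbs = 0 := by omega
    exact Int.natAbs_eq_zero.1 this
  rw [h2]; simp

lemma ht_pos {x : R} (h : x ≠ 0) : 0 < ht b x :=
  Nat.pos_of_ne_zero (fun h0 => h (ht_eq_zero b h0))

lemma ht_add_le (x y : R) : ht b (x + y) ≤ ht b x + ht b y := by
  rw [ht_le_iff]
  intro i
  have h1 := coord_le b x i
  have h2 := coord_le b y i
  have : b.repr (x + y) i = b.repr x i + b.repr y i := by simp
  rw [this]
  have := Int.natAbs_add_le (b.repr x i) (b.repr y i)
  omega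

lemma ht_neg (x : R) : ht b (-x) = ht b x := by
  unfold ht
  congr 1
  ext i
  simp

lemma ht_sub_le (x y : R) : ht b (x - y) ≤ ht b x + ht b y := by
  rw [sub_eq_add_neg]
  have := ht_add_le b x (-y)
  rwa [ht_neg] at this

lemma ht_zsmul_le (m : ℤ) (x : R) : ht b (m • x) ≤ m.natAbs * ht b x := by
  rw [ht_le_iff]
  intro i
  have h1 := coord_le b x i
  have : b.repr (m • x) i = m * b.repr x i := by
    simp only [map_smul, Finsupp.coe_smul, Pi.smul_apply, smul_eq_mul]
  rw [this, Int.natAbs_mul]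
  exact Nat.mul_le_mul_left _ h1

lemma ht_le_of_zsmul {m : ℤ} (hm : m ≠ 0) {x : R} {B : ℕ} (h : ht b (m • x) ≤ m.natAbs * B) :
    ht b x ≤ B := by
  rw [ht_le_iff] at h ⊢
  intro i
  have h1 := h i
  have h2 : b.repr (m • x) i = m * b.repr x i := by
    simp only [map_smul, Finsupp.coe_smul, Pi.smul_apply, smul_eq_mul]
  rw [h2, Int.natAbs_mul] at h1
  exact Nat.le_of_mul_le_mul_left h1 (Int.natAbs_pos.2 hm)

lemma ht_sum_le {ι : Type*} (s : Finset ι) (f : ι → R) :
    ht b (∑ i ∈ s, f i) ≤ ∑ i ∈ s, ht b (f i) := by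
  classical
  induction s using Finset.induction_on with
  | empty => simp [ht_zero]
  | insert a s ha ih =>
    rw [Finset.sum_insert ha, Finset.sum_insert ha]
    exact (ht_add_le b _ _).trans (Nat.add_le_add_left ih _)

/-- multiplicativity constant -/
noncomputable def KK : ℕ := 1 + ∑ i, ∑ j, ht b (b i * b j)

lemma KK_pos : 1 ≤ KK b := by unfold KK; omega

lemma ht_mul_le (x y : R) : ht b (x * y) ≤ KK b * ht b x * ht b y := by
  have hx : x = ∑ i, b.repr x i • b i := (b.sum_repr x).symm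
  have hy : y = ∑ j, b.repr y j • b j := (b.sum_repr y).symm
  have hxy : x * y = ∑ i, ∑ j, (b.repr x i * b.repr y j) • (b i * b j) := by
    conv_lhs => rw [hx, hy]
    rw [Finset.sum_mul]
    apply Finset.sum_congr rfl
    intro i _
    rw [Finset.mul_sum]
    apply Finset.sum_congr rfl
    intro j _
    rw [smul_mul_smul_comm]
  rw [hxy]
  refine (ht_sum_le b _ _).trans ?_
  have h1 : ∀ i ∈ Finset.univ, ht b (∑ j, (b.repr x i * b.repr y j) • (b i * b j)) ≤
      ∑ j, (ht b x * ht b y) * ht b (b i * b j) := by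
    intro i _
    refine (ht_sum_le b _ _).trans ?_
    apply Finset.sum_le_sum
    intro j _
    refine (ht_zsmul_le b _ _).trans ?_
    apply Nat.mul_le_mul_right
    rw [Int.natAbs_mul]
    exact Nat.mul_le_mul (coord_le b x i) (coord_le b y j)
  refine (Finset.sum_le_sum h1).trans ?_
  have h2 : ∑ i, ∑ j, (ht b x * ht b y) * ht b (b i * b j) =
      (ht b x * ht b y) * ∑ i, ∑ j, ht b (b i * b j) := by
    rw [Finset.mul_sum]
    apply Finset.sum_congr rfl
    intro i _
    rw [Finset.mul_sum]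
  rw [h2]
  unfold KK
  nlinarith [Nat.zero_le (ht b x * ht b y)]

/-- ball as a finset -/
noncomputable def ball (T : ℕ) : Finset R :=
  (Fintype.piFinset (fun _ : Fin d => Finset.Icc (-(T:ℤ)) T)).map
    b.equivFun.symm.toEquiv.toEmbedding

lemma mem_ball (T : ℕ) (x : R) : x ∈ ball b T ↔ ht b x ≤ T := by
  unfold ball
  rw [Finset.mem_map_equiv, Fintype.mem_piFinset, ht_le_iff]
  constructor
  · intro h i
    have := h i
    rw [Finset.mem_Icc] at this
    have h2 : (b.equivFun.symm.toEquiv.symm x) i = b.repr x i := by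
      simp [Basis.equivFun]
    rw [h2] at this
    omega
  · intro h i
    have := h i
    rw [Finset.mem_Icc]
    have h2 : (b.equivFun.symm.toEquiv.symm x) i = b.repr x i := by
      simp [Basis.equivFun]
    rw [h2]
    omega

lemma card_ball (T : ℕ) : (ball b T).card = (2 * T + 1) ^ d := by
  unfold ball
  rw [Finset.card_map, Fintype.card_piFinset]
  simp only [Int.card_Icc, Finset.prod_const, Finset.card_univ, Fintype.card_fin]
  congr 1
  omega

/-- rounding -/
lemma round (m : ℤ) (hm : 0 < m) (y : R) : ∃ q s : R, y = m • q + s ∧ ht b s ≤ m.natAbs := by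
  refine ⟨b.equivFun.symm (fun i => b.repr y i / m), b.equivFun.symm (fun i => b.repr y i % m),
    ?_, ?_⟩
  · apply b.ext_elem
    intro i
    simp only [map_add, map_smul, Finsupp.coe_add, Finsupp.coe_smul, Pi.add_apply, Pi.smul_apply,
      smul_eq_mul]
    have h1 : ∀ u : Fin d → ℤ, b.repr (b.equivFun.symm u) i = u i := by
      intro u
      have := congrFun (b.equivFun.apply_symm_apply u) i
      simpa using this
    rw [h1, h1]
    exact (Int.mul_ediv_add_emod _ _).symm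
  · rw [ht_le_iff]
    intro i
    have h1 : ∀ u : Fin d → ℤ, b.repr (b.equivFun.symm u) i = u i := by
      intro u
      have := congrFun (b.equivFun.apply_symm_apply u) i
      simpa [Basis.equivFun] using this
    rw [h1]
    have h2 := Int.emod_nonneg (b.repr y i) hm.ne'
    have h3 := Int.emod_lt_of_pos (b.repr y i) hm
    omega

/-- packing lemma -/
lemma packing {ι : Type*} (F : Finset ι) (c : ι → Fin d → ℤ) (T ρ : ℕ) (hρ : 0 < ρ)
    (hT : ∀ v ∈ F, ∀ i, (c v i).natAbs ≤ T)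
    (hsep : ∀ v ∈ F, ∀ w ∈ F, (∀ i, (c v i - c w i).natAbs < ρ) → v = w) :
    F.card ≤ (2 * (T / ρ) + 2) ^ d := by
  classical
  have hρ' : (0:ℤ) < ρ := by exact_mod_cast hρ
  have key : F.card ≤ (Fintype.piFinset (fun _ : Fin d =>
      Finset.Icc (-((T / ρ : ℕ) : ℤ) - 1) ((T / ρ : ℕ) : ℤ))).card := by
    apply Finset.card_le_card_of_injOn (fun v => fun i => c v i / (ρ:ℤ))
    · intro v hv
      rw [Finset.mem_coe, Fintype.mem_piFinset]
      intro i
      rw [Finset.mem_Icc]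
      have h1 := hT v hv i
      have h1a : c v i ≤ T := by omega
      have h1b : -(T:ℤ) ≤ c v i := by omega
      constructor
      · rw [Int.le_ediv_iff_mul_le hρ']
        have h2 : T < (T / ρ + 1) * ρ := by
          have := Nat.div_add_mod T ρ
          have h3 := Nat.mod_lt T hρ
          nlinarith
        have h2' : (T:ℤ) < (((T / ρ : ℕ) : ℤ) + 1) * ρ := by exact_mod_cast h2
        linarith
      · have h2 : c v i / (ρ:ℤ) ≤ (T:ℤ) / (ρ:ℤ) := Int.ediv_le_ediv hρ' h1a
        simpa using h2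
    · intro v hv w hw hvw
      apply hsep v hv w hw
      intro i
      have h1 := congrFun hvw i
      simp only at h1
      have e1 := Int.mul_ediv_add_emod (c v i) ρ
      have e2 := Int.mul_ediv_add_emod (c w i) ρ
      have b1 := Int.emod_nonneg (c v i) hρ'.ne'
      have b2 := Int.emod_lt_of_pos (c v i) hρ'
      have b3 := Int.emod_nonneg (c w i) hρ'.ne'
      have b4 := Int.emod_lt_of_pos (c w i) hρ'
      rw [h1] at e1
      omega
  refine key.trans (le_of_eq ?_)
  rw [Fintype.card_piFinset]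
  simp only [Int.card_Icc, Finset.prod_const, Finset.card_univ, Fintype.card_fin]
  congr 1
  omega

end Height

section Dom

variable {R : Type*} [CommRing R] [IsDomain R] {d : ℕ} (b : Basis (Fin d) ℤ R)

include b in
lemma exists_mul_eq_int (x : R) (hx : x ≠ 0) : ∃ (x' : R) (m : ℤ), 0 < m ∧ x * x' = (m : R) := by
  have hfin : Module.Finite ℤ R := Module.Finite.of_basis b
  have hint : IsIntegral ℤ x := Algebra.IsIntegral.isIntegral x
  have hne := Ideal.comap_ne_bot_of_integral_mem (R := ℤ) (I := Ideal.span {x}) hx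
    (Ideal.mem_span_singleton_self x) hint
  obtain ⟨m, hm, hm0⟩ := Submodule.exists_mem_ne_zero_of_ne_bot hne
  rw [Ideal.mem_comap, Ideal.mem_span_singleton] at hm
  obtain ⟨x', hx'⟩ := hm
  rcases lt_or_gt_of_ne hm0 with h | h
  · refine ⟨-x', -m, by omega, ?_⟩
    rw [mul_neg, ← hx']
    simp
  · refine ⟨x', m, h, ?_⟩
    rw [← hx']
    simp

omit [IsDomain R] in
include b in
lemma int_cancel {m : ℤ} (hm : m ≠ 0) {x y : R} (h : m • x = m • y) : x = y := by
  apply b.ext_elem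
  intro i
  have h1 : b.repr (m • x) i = b.repr (m • y) i := by rw [h]
  simp only [map_smul, Finsupp.coe_smul, Pi.smul_apply, smul_eq_mul] at h1
  exact mul_left_cancel₀ hm h1

/-- every element is congruent modulo `x` to one of height at most `KK * ht x`. -/
lemma reduce_mod (x : R) (hx : x ≠ 0) (y : R) : ∃ q : R, ht b (y - x * q) ≤ KK b * ht b x := by
  obtain ⟨x', m, hm, hxx⟩ := exists_mul_eq_int b x hx
  obtain ⟨q, s, hqs, hs⟩ := round b m hm (y * x')
  refine ⟨q, ?_⟩
  apply ht_le_of_zsmul b hm.ne'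
  have h1 : m • (y - x * q) = x * s := by
    have : m • (y - x * q) = (m : R) * (y - x * q) := by simp
    rw [this, mul_sub]
    have h2 : (m : R) * y = x * (y * x') := by rw [← hxx]; ring
    rw [h2, hqs]
    have h3 : m • q = (m : R) * q := by simp
    rw [h3]; ring
  rw [h1]
  refine (ht_mul_le b x s).trans ?_
  calc KK b * ht b x * ht b s ≤ KK b * ht b x * m.natAbs := Nat.mul_le_mul_left _ hs
    _ = m.natAbs * (KK b * ht b x) := by ring

end Dom


section Count

variable {R : Type*} [CommRing R] [IsDomain R] {d : ℕ} (b : Basis (Fin d) ℤ R)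

lemma ker_card (I : Ideal R) [Finite (R ⧸ I)] (g x : R) (hx : x ≠ 0)
    (hxI : ∃ a : R ⧸ I, Ideal.Quotient.mk I x = Ideal.Quotient.mk I g * a) :
    Nat.card (AddMonoidHom.mulLeft (Ideal.Quotient.mk I g)).ker ≤ (2 * (KK b * ht b x) + 1) ^ d := by
  set f : (R ⧸ I) →+ (R ⧸ I) := AddMonoidHom.mulLeft (Ideal.Quotient.mk I g) with hf
  have h1 := AddSubgroup.card_mul_index f.ker
  have h2 := AddSubgroup.index_ker f
  rw [h2] at h1
  obtain ⟨a, ha⟩ := hxI
  have h3 : Nat.card (R ⧸ I) ≤ Nat.card ((ball b (KK b * ht b x) : Finset R) × f.range) := by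
    apply Nat.card_le_card_of_surjective
      (fun p : (ball b (KK b * ht b x) : Finset R) × f.range =>
        Ideal.Quotient.mk I p.1.1 + p.2.1)
    intro y
    obtain ⟨r, rfl⟩ := Ideal.Quotient.mk_surjective y
    obtain ⟨q, hq⟩ := reduce_mod b x hx r
    refine ⟨⟨⟨r - x * q, (mem_ball b _ _).2 hq⟩, ⟨Ideal.Quotient.mk I x * Ideal.Quotient.mk I q,
      ⟨a * Ideal.Quotient.mk I q, ?_⟩⟩⟩, ?_⟩
    · rw [hf, AddMonoidHom.coe_mulLeft, ha]; ring
    · simp only [map_sub, map_mul]; ring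
  rw [Nat.card_prod] at h3
  have h4 : Nat.card (ball b (KK b * ht b x) : Finset R) = (2 * (KK b * ht b x) + 1) ^ d := by
    rw [Nat.card_eq_fintype_card, Fintype.card_coe, card_ball]
  rw [h4] at h3
  have h5 : 0 < Nat.card f.range := Nat.card_pos
  rw [← h1] at h3
  exact Nat.le_of_mul_le_mul_right h3 h5

open Classical in
lemma count_fiber (I : Ideal R) [Fintype (R ⧸ I)] (g : R) (T : ℕ) (hg : ht b g ≤ T) :
    (Finset.univ.filter (fun a : R ⧸ I => ∃ f : R, (f ≠ 0 ∨ g ≠ 0) ∧ ht b f ≤ T ∧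
      Ideal.Quotient.mk I f = Ideal.Quotient.mk I g * a)).card ≤ (12 * KK b * T) ^ d := by
  have hK := KK_pos b
  set S : Set ℕ := {k | ∃ x : R, x ≠ 0 ∧ ht b x = k ∧
    ∃ a : R ⧸ I, Ideal.Quotient.mk I x = Ideal.Quotient.mk I g * a} with hS
  by_cases hex : ∃ x : R, x ≠ 0 ∧ ht b x ≤ T ∧
    ∃ a : R ⧸ I, Ideal.Quotient.mk I x = Ideal.Quotient.mk I g * a
  · obtain ⟨x0, hx0, hx0T, hx0a⟩ := hex
    have hSne : S.Nonempty := ⟨ht b x0, x0, hx0, rfl, hx0a⟩
    obtain ⟨x, hx, hxρ, hxa⟩ := Nat.sInf_mem hSne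
    set ρ := sInf S with hρdef
    have hρT : ρ ≤ T := by
      have hyS : ht b x0 ∈ S := ⟨x0, hx0, rfl, hx0a⟩
      exact (Nat.sInf_le hyS).trans hx0T
    have hρ0 : 0 < ρ := by rw [← hxρ]; exact ht_pos b hx
    have hmin : ∀ y : R, y ≠ 0 → (∃ a : R ⧸ I, Ideal.Quotient.mk I y = Ideal.Quotient.mk I g * a) →
        ρ ≤ ht b y := by
      intro y hy hya
      have hyS : ht b y ∈ S := ⟨y, hy, rfl, hya⟩
      exact Nat.sInf_le hyS
    set F : Finset R := (ball b T).filter (fun f => ∃ a : R ⧸ I,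
      Ideal.Quotient.mk I f = Ideal.Quotient.mk I g * a) with hF
    have hFcard : F.card ≤ (2 * (T / ρ) + 2) ^ d := by
      apply packing F (fun v i => b.repr v i) T ρ hρ0
      · intro v hv i
        rw [hF, Finset.mem_filter, mem_ball] at hv
        exact (coord_le b v i).trans hv.1
      · intro v hv w hw hvw
        by_contra hne
        rw [hF, Finset.mem_filter] at hv hw
        obtain ⟨_, av, hav⟩ := hv
        obtain ⟨_, aw, haw⟩ := hw
        have h1 : ρ ≤ ht b (v - w) := by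
          apply hmin (v - w) (sub_ne_zero.2 hne)
          refine ⟨av - aw, ?_⟩
          rw [map_sub, hav, haw]; ring
        have h2 : ht b (v - w) ≤ ρ - 1 := by
          rw [ht_le_iff]
          intro i
          have := hvw i
          have h3 : b.repr (v - w) i = b.repr v i - b.repr w i := by simp
          rw [h3]; omega
        omega
    have hker := ker_card b I g x hx hxa
    have hsub : (Finset.univ.filter (fun a : R ⧸ I => ∃ f : R, (f ≠ 0 ∨ g ≠ 0) ∧ ht b f ≤ T ∧
      Ideal.Quotient.mk I f = Ideal.Quotient.mk I g * a)) ⊆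
        F.biUnion (fun f => Finset.univ.filter (fun a : R ⧸ I =>
          Ideal.Quotient.mk I g * a = Ideal.Quotient.mk I f)) := by
      intro a ha
      rw [Finset.mem_filter] at ha
      obtain ⟨_, f, _, hfT, hfa⟩ := ha
      rw [Finset.mem_biUnion]
      refine ⟨f, ?_, ?_⟩
      · rw [hF, Finset.mem_filter, mem_ball]; exact ⟨hfT, a, hfa⟩
      · rw [Finset.mem_filter]; exact ⟨Finset.mem_univ _, hfa.symm⟩
    have hfib : ∀ f ∈ F, (Finset.univ.filter (fun a : R ⧸ I =>
          Ideal.Quotient.mk I g * a = Ideal.Quotient.mk I f)).card ≤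
          (2 * (KK b * ht b x) + 1) ^ d := by
      intro f _
      refine le_trans ?_ hker
      by_cases hne : (Finset.univ.filter (fun a : R ⧸ I =>
          Ideal.Quotient.mk I g * a = Ideal.Quotient.mk I f)).Nonempty
      · obtain ⟨a0, ha0⟩ := hne
        rw [Finset.mem_filter] at ha0
        have hc : (Finset.univ.filter (fun a : R ⧸ I =>
          Ideal.Quotient.mk I g * a = Ideal.Quotient.mk I f)).card =
            Nat.card (Finset.univ.filter (fun a : R ⧸ I =>
          Ideal.Quotient.mk I g * a = Ideal.Quotient.mk I f) : Finset (R ⧸ I)) := by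
          rw [Nat.card_eq_fintype_card, Fintype.card_coe]
        rw [hc]
        apply Nat.card_le_card_of_injective (fun a => (⟨a.1 - a0, by
          have := (Finset.mem_filter.1 a.2).2
          rw [AddMonoidHom.mem_ker, AddMonoidHom.coe_mulLeft, mul_sub, this, ha0.2, sub_self]⟩ :
            (AddMonoidHom.mulLeft (Ideal.Quotient.mk I g)).ker))
        intro a a' haa
        have := congrArg Subtype.val haa
        simp only [sub_left_inj] at this
        exact Subtype.ext this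
      · rw [Finset.not_nonempty_iff_eq_empty] at hne
        rw [hne]; simp
    refine (Finset.card_le_card hsub).trans ?_
    refine (Finset.card_biUnion_le).trans ?_
    refine (Finset.sum_le_sum hfib).trans ?_
    rw [Finset.sum_const, smul_eq_mul]
    refine (Nat.mul_le_mul_right _ hFcard).trans ?_
    rw [← mul_pow]
    apply Nat.pow_le_pow_left
    rw [hxρ]
    have e1 : (T / ρ) * ρ ≤ T := Nat.div_mul_le_self T ρ
    have e2 : 1 ≤ T / ρ := Nat.div_pos hρT hρ0
    have e3 : 1 ≤ KK b * ρ := Nat.mul_pos hK hρ0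
    calc (2 * (T / ρ) + 2) * (2 * (KK b * ρ) + 1) ≤ (4 * (T / ρ)) * (3 * (KK b * ρ)) :=
          Nat.mul_le_mul (by omega) (by omega)
      _ = 12 * KK b * ((T / ρ) * ρ) := by ring
      _ ≤ 12 * KK b * T := Nat.mul_le_mul_left _ e1
  · have hempty : (Finset.univ.filter (fun a : R ⧸ I => ∃ f : R, (f ≠ 0 ∨ g ≠ 0) ∧ ht b f ≤ T ∧
      Ideal.Quotient.mk I f = Ideal.Quotient.mk I g * a)) = ∅ := by
      rw [Finset.filter_eq_empty_iff]
      rintro a _ ⟨f, hfg, hfT, hfa⟩
      apply hex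
      by_cases hg0 : g = 0
      · have hf0 : f ≠ 0 := by
          rcases hfg with h | h
          · exact h
          · exact absurd hg0 h
        exact ⟨f, hf0, hfT, a, hfa⟩
      · exact ⟨g, hg0, hg, 1, by simp⟩
    rw [hempty]; simp

open Classical in
lemma count_all (I : Ideal R) [Fintype (R ⧸ I)] (T : ℕ) (hT : 1 ≤ T) :
    (Finset.univ.filter (fun a : R ⧸ I => ∃ f g : R, (f ≠ 0 ∨ g ≠ 0) ∧ ht b f ≤ T ∧ ht b g ≤ T ∧
      Ideal.Quotient.mk I f = Ideal.Quotient.mk I g * a)).card ≤ (36 * KK b) ^ d * T ^ (2 * d) := by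
  have hsub : (Finset.univ.filter (fun a : R ⧸ I => ∃ f g : R, (f ≠ 0 ∨ g ≠ 0) ∧ ht b f ≤ T ∧
      ht b g ≤ T ∧ Ideal.Quotient.mk I f = Ideal.Quotient.mk I g * a)) ⊆
      (ball b T).biUnion (fun g => Finset.univ.filter (fun a : R ⧸ I => ∃ f : R,
        (f ≠ 0 ∨ g ≠ 0) ∧ ht b f ≤ T ∧ Ideal.Quotient.mk I f = Ideal.Quotient.mk I g * a)) := by
    intro a ha
    rw [Finset.mem_filter] at ha
    obtain ⟨_, f, g, hfg, hf, hg, hfa⟩ := ha
    rw [Finset.mem_biUnion]
    exact ⟨g, (mem_ball b _ _).2 hg, Finset.mem_filter.2 ⟨Finset.mem_univ _, f, hfg, hf, hfa⟩⟩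
  refine (Finset.card_le_card hsub).trans ?_
  refine (Finset.card_biUnion_le).trans ?_
  have h1 : ∀ g ∈ ball b T, (Finset.univ.filter (fun a : R ⧸ I => ∃ f : R,
        (f ≠ 0 ∨ g ≠ 0) ∧ ht b f ≤ T ∧ Ideal.Quotient.mk I f = Ideal.Quotient.mk I g * a)).card ≤
        (12 * KK b * T) ^ d := by
    intro g hg
    exact count_fiber b I g T ((mem_ball b _ _).1 hg)
  refine (Finset.sum_le_sum h1).trans ?_
  rw [Finset.sum_const, smul_eq_mul, card_ball, ← mul_pow]
  have h2 : (36 * KK b) ^ d * T ^ (2 * d) = (36 * KK b * T ^ 2) ^ d := by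
    rw [pow_mul, ← mul_pow]
  rw [h2]
  apply Nat.pow_le_pow_left
  calc (2 * T + 1) * (12 * KK b * T) ≤ (3 * T) * (12 * KK b * T) :=
        Nat.mul_le_mul_right _ (by omega)
    _ = 36 * KK b * T ^ 2 := by ring

end Count

section Minor

variable {R : Type*} [CommRing R] [IsDomain R] {d : ℕ} (b : Basis (Fin d) ℤ R)

/-- coordinates of a pair. -/
noncomputable def co (v : R × R) : Fin d ⊕ Fin d → ℤ :=
  Sum.elim (fun j => b.repr v.1 j) (fun j => b.repr v.2 j)

/-- height of a pair. -/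
noncomputable def H (v : R × R) : ℕ := max (ht b v.1) (ht b v.2)

omit [IsDomain R] in
lemma H_le_iff (v : R × R) (T : ℕ) : H b v ≤ T ↔ ∀ j, (co b v j).natAbs ≤ T := by
  unfold H co
  rw [max_le_iff, ht_le_iff, ht_le_iff]
  constructor
  · rintro ⟨h1, h2⟩ (j | j)
    · exact h1 j
    · exact h2 j
  · intro h
    exact ⟨fun j => h (Sum.inl j), fun j => h (Sum.inr j)⟩

omit [IsDomain R] in
lemma co_le (v : R × R) (j : Fin d ⊕ Fin d) : (co b v j).natAbs ≤ H b v :=
  (H_le_iff b v _).1 le_rfl j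

omit [IsDomain R] in
lemma H_pos {v : R × R} (h : v ≠ 0) : 0 < H b v := by
  unfold H
  by_cases h1 : v.1 = 0
  · have h2 : v.2 ≠ 0 := fun h2 => h (Prod.ext h1 h2)
    exact lt_of_lt_of_le (ht_pos b h2) (le_max_right _ _)
  · exact lt_of_lt_of_le (ht_pos b h1) (le_max_left _ _)

omit [IsDomain R] in
lemma co_sub (v w : R × R) (j : Fin d ⊕ Fin d) : co b (v - w) j = co b v j - co b w j := by
  rcases j with j | j <;> simp [co]

/-- the coordinate matrix of the `R`-line spanned by `v₀`. -/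
noncomputable def A (v0 : R × R) : Matrix (Fin d) (Fin d ⊕ Fin d) ℤ :=
  fun i j => co b (b i * v0.1, b i * v0.2) j

omit [IsDomain R] in
lemma co_mul (v0 : R × R) (y : R) (j : Fin d ⊕ Fin d) :
    co b (y * v0.1, y * v0.2) j = ∑ i, b.repr y i * A b v0 i j := by
  have hy : y = ∑ j, b.repr y j • b j := (b.sum_repr y).symm
  rcases j with j | j
  · simp only [co, Sum.elim_inl, A]
    conv_lhs => rw [hy, Finset.sum_mul]
    simp only [map_sum, smul_mul_assoc, map_smul, Finsupp.coe_finsetSum, Finsupp.coe_smul,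
      Finset.sum_apply, Pi.smul_apply, smul_eq_mul]
  · simp only [co, Sum.elim_inr, A]
    conv_lhs => rw [hy, Finset.sum_mul]
    simp only [map_sum, smul_mul_assoc, map_smul, Finsupp.coe_finsetSum, Finsupp.coe_smul,
      Finset.sum_apply, Pi.smul_apply, smul_eq_mul]

lemma exists_minor (v0 : R × R) (hv0 : v0 ≠ 0) :
    ∃ S : Fin d → Fin d ⊕ Fin d, ((A b v0).submatrix id S).det ≠ 0 := by
  have hz : ∀ x : R, x ≠ 0 → ∀ M : Matrix (Fin d) (Fin d) ℤ,
      (∀ i j, M i j = b.repr (b i * x) j) → M.det ≠ 0 := by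
    intro x hx M hM hdet
    obtain ⟨c, hc, hcM⟩ := Matrix.exists_vecMul_eq_zero_iff.2 hdet
    apply hc
    have h1 : (∑ i, c i • b i) * x = 0 := by
      apply b.ext_elem
      intro j
      have h2 := congrFun hcM j
      simp only [Matrix.vecMul, dotProduct, Pi.zero_apply] at h2
      rw [Finset.sum_mul]
      simp only [map_sum, smul_mul_assoc, map_smul, Finsupp.coe_finsetSum, Finsupp.coe_smul,
        Finset.sum_apply, Pi.smul_apply, smul_eq_mul, map_zero, Finsupp.coe_zero, Pi.zero_apply]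
      rw [← h2]
      apply Finset.sum_congr rfl
      intro i _
      rw [hM]
    have h2 : ∑ i, c i • b i = 0 := by
      rcases mul_eq_zero.1 h1 with h | h
      · exact h
      · exact absurd h hx
    have h3 := Fintype.linearIndependent_iff.1 b.linearIndependent c h2
    funext i
    exact h3 i
  by_cases h1 : v0.1 = 0
  · have h2 : v0.2 ≠ 0 := fun h2 => hv0 (Prod.ext h1 h2)
    exact ⟨Sum.inr, hz v0.2 h2 _ (fun i j => by simp [A, co])⟩
  · exact ⟨Sum.inl, hz v0.1 h1 _ (fun i j => by simp [A, co])⟩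

/-- well conditioned coordinates on the line of `v₀`. -/
lemma good_coords (v0 : R × R) (hv0 : v0 ≠ 0) :
    ∃ S : Fin d → Fin d ⊕ Fin d, ∀ v : R × R, v.1 * v0.2 = v0.1 * v.2 →
      ∀ j, (co b v j).natAbs ≤ ∑ i, (co b v (S i)).natAbs := by
  obtain ⟨S1, hS1⟩ := exists_minor b v0 hv0
  obtain ⟨S, -, hS⟩ := Finset.exists_max_image (Finset.univ : Finset (Fin d → Fin d ⊕ Fin d))
    (fun S => ((A b v0).submatrix id S).det.natAbs) ⟨S1, Finset.mem_univ _⟩
  have hdet : ((A b v0).submatrix id S).det ≠ 0 := by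
    have := hS S1 (Finset.mem_univ _)
    have h2 := Int.natAbs_pos.2 hS1
    intro h0
    rw [h0] at this
    simp only [Int.natAbs_zero] at this
    omega
  refine ⟨S, ?_⟩
  intro v hv j
  -- find m, y with m v = y v0
  have hmy : ∃ (m : ℤ) (y : R), m ≠ 0 ∧ (m : R) * v.1 = y * v0.1 ∧ (m : R) * v.2 = y * v0.2 := by
    by_cases h1 : v0.1 = 0
    · have h2 : v0.2 ≠ 0 := fun h2 => hv0 (Prod.ext h1 h2)
      obtain ⟨x', m, hm, hx⟩ := exists_mul_eq_int b v0.2 h2
      refine ⟨m, v.2 * x', hm.ne', ?_, ?_⟩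
      · rw [h1] at hv ⊢
        rw [zero_mul] at hv
        rcases mul_eq_zero.1 hv with h | h
        · rw [h]; ring
        · exact absurd h h2
      · rw [← hx]; ring
    · obtain ⟨x', m, hm, hx⟩ := exists_mul_eq_int b v0.1 h1
      refine ⟨m, v.1 * x', hm.ne', ?_, ?_⟩
      · rw [← hx]; ring
      · rw [← hx]
        calc v0.1 * x' * v.2 = x' * (v0.1 * v.2) := by ring
          _ = x' * (v.1 * v0.2) := by rw [hv]
          _ = v.1 * x' * v0.2 := by ring
  obtain ⟨m, y, hm, hm1, hm2⟩ := hmy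
  have hco : ∀ j, m * co b v j = ∑ i, b.repr y i * A b v0 i j := by
    intro j
    rw [← co_mul, ← hm1, ← hm2]
    rcases j with j | j
    · simp only [co, Sum.elim_inl]
      have : (m : R) * v.1 = m • v.1 := by simp
      rw [this, map_smul]; rfl
    · simp only [co, Sum.elim_inr]
      have : (m : R) * v.2 = m • v.2 := by simp
      rw [this, map_smul]; rfl
  set AS := (A b v0).submatrix id S with hAS
  have hcr := Matrix.mulVec_cramer AS (fun i => A b v0 i j)
  -- dot with c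
  have key : AS.det * (m * co b v j) = ∑ i, (m * co b v (S i)) *
      Matrix.cramer AS (fun i => A b v0 i j) i := by
    have h1 : (fun i => b.repr y i) ⬝ᵥ (AS.mulVec (Matrix.cramer AS (fun i => A b v0 i j))) =
        (fun i => b.repr y i) ⬝ᵥ (AS.det • (fun i => A b v0 i j)) := by rw [hcr]
    rw [Matrix.dotProduct_mulVec, dotProduct_smul] at h1
    rw [hco j]
    have h2 : AS.det * ∑ i, b.repr y i * A b v0 i j =
        AS.det • ((fun i => b.repr y i) ⬝ᵥ (fun i => A b v0 i j)) := by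
      simp [dotProduct]
    rw [h2, ← h1]
    simp only [dotProduct]
    apply Finset.sum_congr rfl
    intro i _
    congr 1
    rw [hco (S i)]
    simp [Matrix.vecMul, dotProduct, hAS]
  have hcrle : ∀ i, (Matrix.cramer AS (fun i => A b v0 i j) i).natAbs ≤ AS.det.natAbs := by
    intro i
    rw [Matrix.cramer_apply]
    have h1 : AS.updateCol i (fun i => A b v0 i j) =
        (A b v0).submatrix id (Function.update S i j) := by
      ext k l
      rw [Matrix.updateCol_apply]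
      by_cases h : l = i
      · subst h; simp
      · simp [h, hAS]
    rw [h1]
    exact hS _ (Finset.mem_univ _)
  have hfin : AS.det.natAbs * (m.natAbs * (co b v j).natAbs) ≤
      AS.det.natAbs * (m.natAbs * ∑ i, (co b v (S i)).natAbs) := by
    rw [← Int.natAbs_mul, ← Int.natAbs_mul, key]
    refine (Int.natAbs_sum_le _ _).trans ?_
    rw [Finset.mul_sum, Finset.mul_sum]
    apply Finset.sum_le_sum
    intro i _
    rw [Int.natAbs_mul, Int.natAbs_mul]
    calc m.natAbs * (co b v (S i)).natAbs * (Matrix.cramer AS (fun i => A b v0 i j) i).natAbs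
        ≤ m.natAbs * (co b v (S i)).natAbs * AS.det.natAbs := Nat.mul_le_mul_left _ (hcrle i)
      _ = _ := by ring
  have h3 := Nat.le_of_mul_le_mul_left hfin (Int.natAbs_pos.2 hdet)
  exact Nat.le_of_mul_le_mul_left h3 (Int.natAbs_pos.2 hm)

end Minor

section Lat

variable {R : Type*} [CommRing R] [IsDomain R] {d : ℕ} (b : Basis (Fin d) ℤ R)

/-- the lattice of pairs `(f, g)` with `f = g a` in `R / I`. -/
def InL (I : Ideal R) (a : R ⧸ I) (v : R × R) : Prop :=
  Ideal.Quotient.mk I v.1 = Ideal.Quotient.mk I v.2 * a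

omit [IsDomain R] in
lemma InL_sub {I : Ideal R} {a : R ⧸ I} {v w : R × R} (hv : InL I a v) (hw : InL I a w) :
    InL I a (v - w) := by
  unfold InL at *
  simp only [Prod.fst_sub, Prod.snd_sub, map_sub]
  rw [hv, hw]; ring

omit [IsDomain R] in
lemma InL_add {I : Ideal R} {a : R ⧸ I} {v w : R × R} (hv : InL I a v) (hw : InL I a w) :
    InL I a (v + w) := by
  unfold InL at *
  simp only [Prod.fst_add, Prod.snd_add, map_add]
  rw [hv, hw]; ring

omit [IsDomain R] in
lemma InL_mul {I : Ideal R} {a : R ⧸ I} {v : R × R} (hv : InL I a v) (q : R) :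
    InL I a (q * v.1, q * v.2) := by
  unfold InL at *
  simp only [map_mul]
  rw [hv]; ring

/-- ball of pairs -/
noncomputable def ball2 (T : ℕ) : Finset (R × R) := ball b T ×ˢ ball b T

omit [IsDomain R] in
lemma mem_ball2 (T : ℕ) (v : R × R) : v ∈ ball2 b T ↔ H b v ≤ T := by
  unfold ball2 H
  rw [Finset.mem_product, mem_ball, mem_ball, max_le_iff]

omit [IsDomain R] in
lemma H_sub_le (v w : R × R) : H b (v - w) ≤ H b v + H b w := by
  unfold H
  have h1 := ht_sub_le b v.1 w.1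
  have h2 := ht_sub_le b v.2 w.2
  simp only [Prod.fst_sub, Prod.snd_sub]
  omega

open Classical in
omit [IsDomain R] in
lemma pigeon (I : Ideal R) [Fintype (R ⧸ I)] (a : R ⧸ I) (T : ℕ) :
    T ^ (2 * d) ≤ Fintype.card (R ⧸ I) * ((ball2 b T).filter (InL I a)).card := by
  set f : R × R → R ⧸ I := fun v => Ideal.Quotient.mk I v.1 - Ideal.Quotient.mk I v.2 * a with hf
  have h1 : (ball2 b (T / 2)).card ≤
      ((ball2 b T).filter (InL I a)).card * ((ball2 b (T / 2)).image f).card := by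
    apply Finset.card_le_mul_card_image
    intro q hq
    rw [Finset.mem_image] at hq
    obtain ⟨v0, hv0, hv0q⟩ := hq
    apply Finset.card_le_card_of_injOn (fun v => v - v0)
    · intro v hv
      rw [Finset.mem_coe, Finset.mem_filter] at hv
      rw [Finset.mem_coe, Finset.mem_filter, mem_ball2]
      have h2 := (mem_ball2 b _ _).1 hv.1
      have h3 := (mem_ball2 b _ _).1 hv0
      constructor
      · have := H_sub_le b v v0
        show H b (v - v0) ≤ T
        omega
      · have h4 : f v = f v0 := by rw [hv.2, hv0q]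
        rw [hf] at h4
        simp only at h4
        unfold InL
        simp only [Prod.fst_sub, Prod.snd_sub, map_sub]
        linear_combination h4
    · intro v _ w _ hvw
      simpa using hvw
  have h2 : ((ball2 b (T / 2)).image f).card ≤ Fintype.card (R ⧸ I) := Finset.card_le_univ _
  have h3 : T ^ (2 * d) ≤ (ball2 b (T / 2)).card := by
    unfold ball2
    rw [Finset.card_product, card_ball, ← pow_add, two_mul]
    apply Nat.pow_le_pow_left
    omega
  calc T ^ (2 * d) ≤ _ := h3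
    _ ≤ _ := h1
    _ ≤ ((ball2 b T).filter (InL I a)).card * Fintype.card (R ⧸ I) := Nat.mul_le_mul_left _ h2
    _ = _ := Nat.mul_comm _ _

open Classical in
lemma line_pack (hd : 1 ≤ d) (I : Ideal R) [Fintype (R ⧸ I)] (a : R ⧸ I) (T X : ℕ) (hX1 : 1 ≤ X)
    (hX : ∀ v, InL I a v → v ≠ 0 → X ≤ H b v)
    (hline : ∀ v w, InL I a v → InL I a w → H b v ≤ T → H b w ≤ T → v.1 * w.2 = w.1 * v.2) :
    ((ball2 b T).filter (InL I a)).card ≤ (2 * (d * T / X) + 2) ^ d := by
  by_cases hex : ∃ v0 : R × R, v0 ≠ 0 ∧ InL I a v0 ∧ H b v0 ≤ T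
  · obtain ⟨v0, hv0, hv0L, hv0T⟩ := hex
    obtain ⟨S, hS⟩ := good_coords b v0 hv0
    apply packing _ (fun v i => (d:ℤ) * co b v (S i)) (d * T) X hX1
    · intro v hv i
      rw [Finset.mem_filter, mem_ball2] at hv
      rw [Int.natAbs_mul]
      simp only [Int.natAbs_natCast]
      exact Nat.mul_le_mul_left _ ((co_le b v _).trans hv.1)
    · intro v hv w hw hvw
      rw [Finset.mem_filter, mem_ball2] at hv hw
      by_contra hne
      have hu : v - w ≠ 0 := sub_ne_zero.2 hne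
      have huL := InL_sub hv.2 hw.2
      have hXu := hX _ huL hu
      have hlv := hline v v0 hv.2 hv0L hv.1 hv0T
      have hlw := hline w v0 hw.2 hv0L hw.1 hv0T
      have hlu : (v - w).1 * v0.2 = v0.1 * (v - w).2 := by
        simp only [Prod.fst_sub, Prod.snd_sub]
        linear_combination hlv - hlw
      have h1 : H b (v - w) ≤ ∑ i, (co b (v - w) (S i)).natAbs := by
        rw [H_le_iff]
        exact hS _ hlu
      have h2 : ∀ i ∈ Finset.univ, d * (co b (v - w) (S i)).natAbs ≤ X - 1 := by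
        intro i _
        have h3 := hvw i
        rw [← mul_sub, ← co_sub, Int.natAbs_mul, Int.natAbs_natCast] at h3
        omega
      have h4 := Finset.sum_le_sum h2
      rw [← Finset.mul_sum, Finset.sum_const, Finset.card_univ, Fintype.card_fin,
        smul_eq_mul] at h4
      have h5 := Nat.le_of_mul_le_mul_left h4 hd
      omega
  · have h1 : ((ball2 b T).filter (InL I a)) ⊆ {0} := by
      intro v hv
      rw [Finset.mem_filter, mem_ball2] at hv
      rw [Finset.mem_singleton]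
      by_contra hne
      exact hex ⟨v, hne, hv.2, hv.1⟩
    have h2 := Finset.card_le_card h1
    rw [Finset.card_singleton] at h2
    exact h2.trans (Nat.one_le_pow _ _ (by omega))

lemma WX_bound (hd : 1 ≤ d) (I : Ideal R) [Fintype (R ⧸ I)] (a : R ⧸ I) (W X : ℕ) (hX1 : 1 ≤ X)
    (hW1 : 1 ≤ W)
    (hX : ∀ v, InL I a v → v ≠ 0 → X ≤ H b v)
    (hline : ∀ v w, InL I a v → InL I a w → H b v ≤ W - 1 → H b w ≤ W - 1 →
      v.1 * w.2 = w.1 * v.2) :
    (W * X) ^ d ≤ (8 * d) ^ d * Fintype.card (R ⧸ I) := by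
  classical
  have hP : 1 ≤ Fintype.card (R ⧸ I) := Fintype.card_pos
  by_cases h2X : 2 * X ≤ W
  · set T := W - 1 with hT
    have hTX : X ≤ T := by omega
    have h1 := pigeon b I a T
    have h2 := line_pack b hd I a T X hX1 hX hline
    have h3 : T ^ (2 * d) ≤ Fintype.card (R ⧸ I) * (2 * (d * T / X) + 2) ^ d :=
      h1.trans (Nat.mul_le_mul_left _ h2)
    have hdT : X ≤ d * T := by nlinarith
    have h4 : 1 ≤ d * T / X := Nat.div_pos hdT hX1
    have h5 : (d * T / X) * X ≤ d * T := Nat.div_mul_le_self _ _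
    have h6 : T ^ (2 * d) * X ^ d ≤ Fintype.card (R ⧸ I) * (4 * (d * T)) ^ d := by
      calc T ^ (2 * d) * X ^ d ≤ (Fintype.card (R ⧸ I) * (2 * (d * T / X) + 2) ^ d) * X ^ d :=
            Nat.mul_le_mul_right _ h3
        _ = Fintype.card (R ⧸ I) * ((2 * (d * T / X) + 2) * X) ^ d := by rw [mul_pow]; ring
        _ ≤ Fintype.card (R ⧸ I) * (4 * (d * T)) ^ d := by
            apply Nat.mul_le_mul_left
            apply Nat.pow_le_pow_left
            nlinarith
    have hTpos : 0 < T ^ d := Nat.pow_pos (by omega)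
    have h7 : T ^ d * (T * X) ^ d ≤ T ^ d * (Fintype.card (R ⧸ I) * (4 * d) ^ d) := by
      calc T ^ d * (T * X) ^ d = T ^ (2 * d) * X ^ d := by
            rw [mul_pow, two_mul, pow_add]; ring
        _ ≤ Fintype.card (R ⧸ I) * (4 * (d * T)) ^ d := h6
        _ = T ^ d * (Fintype.card (R ⧸ I) * (4 * d) ^ d) := by
            rw [show 4 * (d * T) = (4 * d) * T by ring, mul_pow]; ring
    have h8 := Nat.le_of_mul_le_mul_left h7 hTpos
    calc (W * X) ^ d ≤ (2 * (T * X)) ^ d := by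
          apply Nat.pow_le_pow_left
          have : W ≤ 2 * T := by omega
          nlinarith
      _ = 2 ^ d * (T * X) ^ d := by rw [mul_pow]
      _ ≤ 2 ^ d * (Fintype.card (R ⧸ I) * (4 * d) ^ d) := Nat.mul_le_mul_left _ h8
      _ = (8 * d) ^ d * Fintype.card (R ⧸ I) := by
          rw [show 8 * d = 2 * (4 * d) by ring, mul_pow 2 (4 * d)]; ring
  · have h8d : 8 ^ d * Fintype.card (R ⧸ I) ≤ (8 * d) ^ d * Fintype.card (R ⧸ I) := by
      apply Nat.mul_le_mul_right
      apply Nat.pow_le_pow_left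
      omega
    refine le_trans ?_ h8d
    by_cases hX2 : X = 1
    · have hW : W = 1 := by omega
      rw [hW, hX2]
      simp only [mul_one, one_pow]
      exact Nat.mul_pos (Nat.pow_pos (by norm_num)) hP
    · set T := X - 1 with hT
      have h1 := pigeon b I a T
      have h2 : ((ball2 b T).filter (InL I a)) ⊆ {0} := by
        intro v hv
        rw [Finset.mem_filter, mem_ball2] at hv
        rw [Finset.mem_singleton]
        by_contra hne
        have := hX v hv.2 hne
        omega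
      have h3 := Finset.card_le_card h2
      rw [Finset.card_singleton] at h3
      have h4 : T ^ (2 * d) ≤ Fintype.card (R ⧸ I) := by
        calc T ^ (2 * d) ≤ _ := h1
          _ ≤ Fintype.card (R ⧸ I) * 1 := Nat.mul_le_mul_left _ h3
          _ = _ := mul_one _
      calc (W * X) ^ d ≤ (8 * (T ^ 2)) ^ d := by
            apply Nat.pow_le_pow_left
            have e1 : X ≤ 2 * T := by omega
            have e2 : W ≤ 4 * T := by omega
            calc W * X ≤ (4 * T) * (2 * T) := Nat.mul_le_mul e2 e1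
              _ = 8 * T ^ 2 := by ring
        _ = 8 ^ d * T ^ (2 * d) := by rw [mul_pow, ← pow_mul]
        _ ≤ 8 ^ d * Fintype.card (R ⧸ I) := Nat.mul_le_mul_left _ h4

lemma unit_vec (I : Ideal R) (a : R ⧸ I) (N : ℕ) (π : R)
    (hdig : ∀ q : R, ∃ c : ℕ, c < N ∧ π ∣ q - (c : R)) (T : ℕ) (v w : R × R)
    (hv : InL I a v) (hw : InL I a w) (hvT : H b v ≤ T) (hwT : H b w ≤ T)
    (hvw : v.1 * w.2 ≠ w.1 * v.2) :
    ∃ u : R × R, InL I a u ∧ H b u ≤ (2 * KK b + 2 * N) * T ∧ π ∣ u.2 - 1 := by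
  obtain ⟨α, hα⟩ := Ideal.Quotient.mk_surjective a
  have hΔ : v.1 * w.2 - w.1 * v.2 ≠ 0 := sub_ne_zero.2 hvw
  obtain ⟨Δ', m, hm, hΔm⟩ := exists_mul_eq_int b _ hΔ
  obtain ⟨q1, s1, hq1, hs1⟩ := round b m hm (Δ' * (α * w.2 - w.1))
  obtain ⟨q2, s2, hq2, hs2⟩ := round b m hm (Δ' * (v.1 - α * v.2))
  obtain ⟨c1, hc1, hc1π⟩ := hdig q1
  obtain ⟨c2, hc2, hc2π⟩ := hdig q2
  have hm1 : ∀ x : R, m • x = (m : R) * x := fun x => by simp
  rw [hm1] at hq1 hq2
  -- reduced vector
  have hu1 : ht b (α - q1 * v.1 - q2 * w.1) ≤ 2 * KK b * T := by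
    apply ht_le_of_zsmul b hm.ne'
    have h1 : m • (α - q1 * v.1 - q2 * w.1) = s1 * v.1 + s2 * w.1 := by
      rw [hm1]
      linear_combination (-α) * hΔm + v.1 * hq1 + w.1 * hq2
    rw [h1]
    have h2 := ht_add_le b (s1 * v.1) (s2 * w.1)
    have h3 := ht_mul_le b s1 v.1
    have h4 := ht_mul_le b s2 w.1
    have h5 : ht b v.1 ≤ T := (le_max_left _ _).trans hvT
    have h6 : ht b w.1 ≤ T := (le_max_left _ _).trans hwT
    have h7 : KK b * ht b s1 * ht b v.1 ≤ KK b * m.natAbs * T :=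
      Nat.mul_le_mul (Nat.mul_le_mul_left _ hs1) h5
    have h8 : KK b * ht b s2 * ht b w.1 ≤ KK b * m.natAbs * T :=
      Nat.mul_le_mul (Nat.mul_le_mul_left _ hs2) h6
    calc _ ≤ _ := h2
      _ ≤ KK b * m.natAbs * T + KK b * m.natAbs * T := by omega
      _ = m.natAbs * (2 * KK b * T) := by ring
  have hu2 : ht b (1 - q1 * v.2 - q2 * w.2) ≤ 2 * KK b * T := by
    apply ht_le_of_zsmul b hm.ne'
    have h1 : m • (1 - q1 * v.2 - q2 * w.2) = s1 * v.2 + s2 * w.2 := by
      rw [hm1]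
      linear_combination (-1) * hΔm + v.2 * hq1 + w.2 * hq2
    rw [h1]
    have h2 := ht_add_le b (s1 * v.2) (s2 * w.2)
    have h3 := ht_mul_le b s1 v.2
    have h4 := ht_mul_le b s2 w.2
    have h5 : ht b v.2 ≤ T := (le_max_right _ _).trans hvT
    have h6 : ht b w.2 ≤ T := (le_max_right _ _).trans hwT
    have h7 : KK b * ht b s1 * ht b v.2 ≤ KK b * m.natAbs * T :=
      Nat.mul_le_mul (Nat.mul_le_mul_left _ hs1) h5
    have h8 : KK b * ht b s2 * ht b w.2 ≤ KK b * m.natAbs * T :=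
      Nat.mul_le_mul (Nat.mul_le_mul_left _ hs2) h6
    calc _ ≤ _ := h2
      _ ≤ KK b * m.natAbs * T + KK b * m.natAbs * T := by omega
      _ = m.natAbs * (2 * KK b * T) := by ring
  have hc : ∀ (c : ℕ) (x : R), c < N → ht b x ≤ T → ht b ((c : R) * x) ≤ N * T := by
    intro c x hc hx
    have h1 : (c : R) * x = (c : ℤ) • x := by simp
    rw [h1]
    refine (ht_zsmul_le b _ _).trans ?_
    rw [Int.natAbs_natCast]
    exact Nat.mul_le_mul hc.le hx
  refine ⟨(α - q1 * v.1 - q2 * w.1 + ((c1 : R) * v.1 + (c2 : R) * w.1),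
    1 - q1 * v.2 - q2 * w.2 + ((c1 : R) * v.2 + (c2 : R) * w.2)), ?_, ?_, ?_⟩
  · unfold InL at *
    simp only [map_sub, map_add, map_mul, map_one, hα]
    rw [hv, hw]; ring
  · unfold H
    apply max_le
    · simp only
      have h1 := ht_add_le b (α - q1 * v.1 - q2 * w.1) ((c1 : R) * v.1 + (c2 : R) * w.1)
      have h2 := ht_add_le b ((c1 : R) * v.1) ((c2 : R) * w.1)
      have h3 := hc c1 v.1 hc1 ((le_max_left _ _).trans hvT)
      have h4 := hc c2 w.1 hc2 ((le_max_left _ _).trans hwT)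
      calc _ ≤ _ := h1
        _ ≤ 2 * KK b * T + (N * T + N * T) := by omega
        _ = _ := by ring
    · simp only
      have h1 := ht_add_le b (1 - q1 * v.2 - q2 * w.2) ((c1 : R) * v.2 + (c2 : R) * w.2)
      have h2 := ht_add_le b ((c1 : R) * v.2) ((c2 : R) * w.2)
      have h3 := hc c1 v.2 hc1 ((le_max_right _ _).trans hvT)
      have h4 := hc c2 w.2 hc2 ((le_max_right _ _).trans hwT)
      calc _ ≤ _ := h1
        _ ≤ 2 * KK b * T + (N * T + N * T) := by omega
        _ = _ := by ring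
  · simp only
    obtain ⟨z1, hz1⟩ := hc1π
    obtain ⟨z2, hz2⟩ := hc2π
    refine ⟨-(z1 * v.2) - z2 * w.2, ?_⟩
    linear_combination (-v.2) * hz1 - w.2 * hz2

end Lat

section Digits

variable {R : Type*} [CommRing R] [IsDomain R] {d : ℕ} (b : Basis (Fin d) ℤ R) (N : ℕ) (π : R)

/-- value of a digit string -/
def val {n : ℕ} (a : Fin n → Fin N) : R := ∑ i : Fin n, (((a i : Fin N) : ℕ) : R) * π ^ (i : ℕ)

omit [IsDomain R] in
lemma dig (hd : 1 ≤ d) (hb : ∀ i, b i = π ^ (i : ℕ)) (hN : 1 ≤ N) (hπN : π ∣ (N : R)) (q : R) :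
    ∃ c : ℕ, c < N ∧ π ∣ q - (c : R) := by
  have h1 : π ∣ q - ((b.repr q ⟨0, hd⟩ : ℤ) : R) := by
    have hq : q = ∑ i, b.repr q i • b i := (b.sum_repr q).symm
    have h2 : q - ((b.repr q ⟨0, hd⟩ : ℤ) : R) =
        ∑ i, (b.repr q i • b i - if i = ⟨0, hd⟩ then ((b.repr q ⟨0, hd⟩ : ℤ) : R) else 0) := by
      rw [Finset.sum_sub_distrib, Finset.sum_ite_eq' Finset.univ, if_pos (Finset.mem_univ _), ← hq]
    rw [h2]
    apply Finset.dvd_sum
    intro i _
    by_cases hi : i = ⟨0, hd⟩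
    · rw [if_pos hi, hi, hb]; simp
    · rw [if_neg hi, hb, sub_zero]
      have h3 : (i : ℕ) ≠ 0 := fun h => hi (Fin.ext h)
      obtain ⟨k, hk⟩ := Nat.exists_eq_succ_of_ne_zero h3
      rw [hk, pow_succ]
      refine ⟨b.repr q i • π ^ k, ?_⟩
      simp only [zsmul_eq_mul]
      ring
  have hN' : (0:ℤ) < N := by exact_mod_cast hN
  have e0 := Int.emod_nonneg (b.repr q ⟨0, hd⟩) hN'.ne'
  have e1 := Int.emod_lt_of_pos (b.repr q ⟨0, hd⟩) hN'
  refine ⟨((b.repr q ⟨0, hd⟩) % N).toNat, by omega, ?_⟩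
  have h4 : (((((b.repr q ⟨0, hd⟩) % N).toNat : ℕ)) : R) =
      ((((b.repr q ⟨0, hd⟩) % N : ℤ)) : R) := by
    rw [← Int.cast_natCast (R := R), Int.toNat_of_nonneg e0]
  rw [h4]
  have h5 := Int.mul_ediv_add_emod (b.repr q ⟨0, hd⟩) N
  have h6 : q - (((b.repr q ⟨0, hd⟩) % N : ℤ) : R) = (q - ((b.repr q ⟨0, hd⟩ : ℤ) : R)) +
      (N : R) * (((b.repr q ⟨0, hd⟩) / N : ℤ) : R) := by
    have h7 : ((b.repr q ⟨0, hd⟩ : ℤ) : R) = (N : R) * (((b.repr q ⟨0, hd⟩) / N : ℤ) : R) +
        (((b.repr q ⟨0, hd⟩) % N : ℤ) : R) := by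
      conv_lhs => rw [← h5]
      push_cast; ring
    rw [h7]; ring
  rw [h6]
  exact dvd_add h1 (Dvd.dvd.mul_right hπN _)

omit [IsDomain R] in
lemma N_dvd_of_dvd (hd : 1 ≤ d) (hb : ∀ i, b i = π ^ (i : ℕ)) (ε : ℤ)
    (hπ : π ^ d = (ε : R) * N) (m : ℤ) (h : π ∣ (m : R)) : (N : ℤ) ∣ m := by
  obtain ⟨y, hy⟩ := h
  have hb0 : b ⟨0, hd⟩ = 1 := by rw [hb]; simp
  have h1 : b.repr (m : R) ⟨0, hd⟩ = m := by
    have : (m : R) = m • b ⟨0, hd⟩ := by rw [hb0]; simp
    rw [this, map_smul]; simp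
  rw [← h1, hy]
  have hyy : y = ∑ i, b.repr y i • b i := (b.sum_repr y).symm
  have h2 : b.repr (π * y) ⟨0, hd⟩ = ∑ i, b.repr y i * b.repr (π * b i) ⟨0, hd⟩ := by
    conv_lhs => rw [hyy, Finset.mul_sum]
    simp only [map_sum, mul_smul_comm, map_smul, Finsupp.coe_finsetSum, Finsupp.coe_smul,
      Finset.sum_apply, Pi.smul_apply, smul_eq_mul]
  rw [h2]
  apply Finset.dvd_sum
  intro i _
  apply Dvd.dvd.mul_left
  by_cases hi : (i : ℕ) + 1 < d
  · have h3 : π * b i = b ⟨i + 1, hi⟩ := by rw [hb, hb, pow_succ]; ring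
    rw [h3, b.repr_self, Finsupp.single_apply, if_neg]
    · exact dvd_zero _
    · intro h; have := congrArg Fin.val h; simp at this
  · have h3 : π * b i = (ε * N : ℤ) • b ⟨0, hd⟩ := by
      have h4 : (i : ℕ) + 1 = d := by have := i.2; omega
      rw [hb, hb0, mul_comm, ← pow_succ, h4, hπ]; simp
    rw [h3, map_smul, b.repr_self]
    simp

omit [IsDomain R] in
lemma val_succ {n : ℕ} (a : Fin (n+1) → Fin N) :
    val N π a = ((a 0 : ℕ) : R) + π * val N π (fun i : Fin n => a i.succ) := by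
  unfold val
  rw [Fin.sum_univ_succ, Finset.mul_sum]
  simp only [Fin.val_zero, pow_zero, mul_one, Fin.val_succ]
  congr 1
  apply Finset.sum_congr rfl
  intro i _
  rw [pow_succ]; ring

lemma val_inj (hπ0 : π ≠ 0) (hdvd : ∀ m : ℤ, π ∣ (m : R) → (N : ℤ) ∣ m) :
    ∀ (n : ℕ) (a a' : Fin n → Fin N), π ^ n ∣ val N π a - val N π a' → a = a' := by
  intro n
  induction n with
  | zero => intro a a' _; exact Subsingleton.elim _ _
  | succ n ih =>
    intro a a' h
    rw [val_succ, val_succ] at h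
    have h0 : a 0 = a' 0 := by
      have h1 : π ∣ (((a 0 : ℕ) : ℤ) - ((a' 0 : ℕ) : ℤ) : ℤ) := by
        have h2 : π ∣ ((a 0 : ℕ) : R) + π * val N π (fun i : Fin n => a i.succ) -
            (((a' 0 : ℕ) : R) + π * val N π (fun i : Fin n => a' i.succ)) :=
          (Dvd.intro_left (π ^ n) (by rw [pow_succ])).trans h
        have h3 : ((((a 0 : ℕ) : ℤ) - ((a' 0 : ℕ) : ℤ) : ℤ) : R) =
            (((a 0 : ℕ) : R) + π * val N π (fun i : Fin n => a i.succ) -
            (((a' 0 : ℕ) : R) + π * val N π (fun i : Fin n => a' i.succ))) -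
            π * (val N π (fun i : Fin n => a i.succ) - val N π (fun i : Fin n => a' i.succ)) := by
          push_cast; ring
        rw [h3]
        exact dvd_sub h2 (Dvd.intro _ rfl)
      have h2 := hdvd _ h1
      have h3 := (a 0).2
      have h4 := (a' 0).2
      apply Fin.ext
      obtain ⟨k, hk⟩ := h2
      have hk0 : k = 0 := by
        have hNpos : (0:ℤ) < N := by omega
        have e1 : (N:ℤ) * k < N := by omega
        have e2 : -(N:ℤ) < N * k := by omega
        have e3 : k < 1 := by nlinarith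
        have e4 : -1 < k := by nlinarith
        omega
      rw [hk0] at hk
      omega
    have h1 : (fun i : Fin n => a i.succ) = (fun i : Fin n => a' i.succ) := by
      apply ih
      rw [h0] at h
      have h2 : ((a' 0 : ℕ) : R) + π * val N π (fun i : Fin n => a i.succ) -
            (((a' 0 : ℕ) : R) + π * val N π (fun i : Fin n => a' i.succ)) =
            π * (val N π (fun i : Fin n => a i.succ) - val N π (fun i : Fin n => a' i.succ)) := by
        ring
      rw [h2, pow_succ'] at h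
      exact (mul_dvd_mul_iff_left hπ0).1 h
    funext i
    refine Fin.cases h0 (fun j => ?_) i
    exact congrFun h1 j

omit [IsDomain R] in
lemma val_surj (hdig : ∀ q : R, ∃ c : ℕ, c < N ∧ π ∣ q - (c : R)) :
    ∀ (n : ℕ) (q : R), ∃ a : Fin n → Fin N, π ^ n ∣ q - val N π a := by
  intro n
  induction n with
  | zero => intro q; exact ⟨Fin.elim0, by simp⟩
  | succ n ih =>
    intro q
    obtain ⟨c, hc, q', hq'⟩ := hdig q
    obtain ⟨a, ha⟩ := ih q'
    refine ⟨Fin.cons ⟨c, hc⟩ a, ?_⟩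
    rw [val_succ]
    simp only [Fin.cons_zero, Fin.cons_succ]
    have h1 : q - ((c : R) + π * val N π (fun i => a i)) = π * (q' - val N π a) := by
      linear_combination hq'
    rw [h1, pow_succ']
    exact mul_dvd_mul_left _ ha

/-- the `π`-adic number `∑ sᵢ πⁱ` equals `f / g`. -/
def IsNumber (s : ℕ → Fin N) (f g : R) : Prop :=
  ∀ k : ℕ, π ^ k ∣ f - g * ∑ i ∈ Finset.range k, (((s i : Fin N) : ℕ) : R) * π ^ i

/-- `g` is invertible modulo `π`. -/
def InvMod (g : R) : Prop := ∃ y : R, π ∣ g * y - 1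

omit [IsDomain R] in
lemma inf_digits (hdig : ∀ q : R, ∃ c : ℕ, c < N ∧ π ∣ q - (c : R)) (g : R) (hg : InvMod π g)
    (r : R) : ∃ s : ℕ → Fin N, IsNumber N π s r g := by
  obtain ⟨y, hy⟩ := hg
  have h1 : ∀ r : R, ∃ (c : Fin N) (r' : R), r - g * ((c : ℕ) : R) = π * r' := by
    intro r
    obtain ⟨c, hc, hcq⟩ := hdig (y * r)
    obtain ⟨z1, hz1⟩ := hy
    obtain ⟨z2, hz2⟩ := hcq
    refine ⟨⟨c, hc⟩, -(r * z1) + g * z2, ?_⟩
    simp only
    linear_combination (-r) * hz1 + g * hz2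
  choose D nx hD using h1
  let rr : ℕ → R := fun k => Nat.rec r (fun _ x => nx x) k
  refine ⟨fun k => D (rr k), ?_⟩
  intro k
  have h2 : ∀ k, r - g * ∑ i ∈ Finset.range k, (((D (rr i) : Fin N) : ℕ) : R) * π ^ i =
      π ^ k * rr k := by
    intro k
    induction k with
    | zero => simp [rr]
    | succ k ih =>
      rw [Finset.sum_range_succ]
      have h3 : rr (k+1) = nx (rr k) := rfl
      rw [h3]
      have h4 := hD (rr k)
      rw [pow_succ]
      linear_combination ih + π ^ k * h4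
  rw [h2 k]
  exact Dvd.intro _ rfl

omit [IsDomain R] in
lemma extend (hdig : ∀ q : R, ∃ c : ℕ, c < N ∧ π ∣ q - (c : R)) (g : R)
    (hg : InvMod π g) : ∀ (n : ℕ) (f : R) (a : Fin n → Fin N), π ^ n ∣ f - g * val N π a →
      ∃ s : ℕ → Fin N, (∀ i : Fin n, s i = a i) ∧ IsNumber N π s f g := by
  intro n
  induction n with
  | zero =>
    intro f a _
    obtain ⟨s, hs⟩ := inf_digits N π hdig g hg f
    exact ⟨s, fun i => i.elim0, hs⟩
  | succ n ih =>
    intro f a h
    rw [val_succ] at h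
    obtain ⟨z, hz⟩ := h
    have h1 : f - g * ((a 0 : ℕ) : R) = π * (π ^ n * z + g * val N π (fun i : Fin n => a i.succ)) := by
      rw [pow_succ'] at hz
      linear_combination hz
    obtain ⟨s, hs1, hs2⟩ := ih (π ^ n * z + g * val N π (fun i : Fin n => a i.succ))
      (fun i => a i.succ) ⟨z, by ring⟩
    refine ⟨fun k => Nat.casesOn k (a 0) s, ?_, ?_⟩
    · intro i
      refine Fin.cases ?_ (fun j => ?_) i
      · rfl
      · exact hs1 j
    · intro k
      cases k with
      | zero => simp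
      | succ k =>
        rw [Finset.sum_range_succ']
        simp only [pow_zero, mul_one]
        have h2 : f - g * (∑ i ∈ Finset.range k, (((s i : Fin N) : ℕ) : R) * π ^ (i + 1) +
            ((a 0 : ℕ) : R)) = π * ((π ^ n * z + g * val N π (fun i : Fin n => a i.succ)) -
              g * ∑ i ∈ Finset.range k, (((s i : Fin N) : ℕ) : R) * π ^ i) := by
          have h3 : ∑ i ∈ Finset.range k, (((s i : Fin N) : ℕ) : R) * π ^ (i + 1) =
              π * ∑ i ∈ Finset.range k, (((s i : Fin N) : ℕ) : R) * π ^ i := by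
            rw [Finset.mul_sum]
            apply Finset.sum_congr rfl
            intro i _
            rw [pow_succ]; ring
          rw [h3]
          linear_combination h1
        change π ^ (k + 1) ∣ f - g * (∑ i ∈ Finset.range k, (((s i : Fin N) : ℕ) : R) * π ^ (i + 1) +
            ((a 0 : ℕ) : R))
        rw [h2, pow_succ']
        exact mul_dvd_mul_left _ (hs2 k)

end Digits

section Average

variable {R : Type*} [CommRing R] [IsDomain R] {d : ℕ} (b : Basis (Fin d) ℤ R) (N : ℕ) (π : R)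
  (φ : R → ℝ)

/-- sizes of the AFSRs whose output is `s`. -/
def sizes (s : ℕ → Fin N) : Set ℝ :=
  {t | ∃ f g : R, InvMod π g ∧ IsNumber N π s f g ∧ t = max (φ f) (φ g)}

/-- complexity of a finite sequence. -/
noncomputable def finComplexity {n : ℕ} (a : Fin n → Fin N) : ℝ :=
  sInf {t | ∃ s : ℕ → Fin N, (∀ i : Fin n, s i = a i) ∧ t ∈ sizes N π φ s}

/-- average complexity. -/
noncomputable def E (n : ℕ) : ℝ :=
  (∑ a : Fin n → Fin N, finComplexity N π φ a) / (N : ℝ) ^ n

omit [IsDomain R] in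
lemma finSet_eq (hdig : ∀ q : R, ∃ c : ℕ, c < N ∧ π ∣ q - (c : R)) {n : ℕ} (a : Fin n → Fin N) :
    {t | ∃ s : ℕ → Fin N, (∀ i : Fin n, s i = a i) ∧ t ∈ sizes N π φ s} =
    {t | ∃ f g : R, InvMod π g ∧ π ^ n ∣ f - g * val N π a ∧ t = max (φ f) (φ g)} := by
  ext t
  constructor
  · rintro ⟨s, hs, f, g, hg, hfg, ht⟩
    refine ⟨f, g, hg, ?_, ht⟩
    have h1 := hfg n
    have h2 : ∑ i ∈ Finset.range n, (((s i : Fin N) : ℕ) : R) * π ^ i = val N π a := by
      unfold val
      rw [Finset.sum_range]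
      apply Finset.sum_congr rfl
      intro i _
      rw [hs i]
    rwa [h2] at h1
  · rintro ⟨f, g, hg, hfg, ht⟩
    obtain ⟨s, hs1, hs2⟩ := extend N π hdig g hg n f a hfg
    exact ⟨s, hs1, f, g, hg, hs2, ht⟩

/-- least height of a nonzero vector of the lattice. -/
noncomputable def Xq (I : Ideal R) (q : R ⧸ I) : ℕ :=
  sInf {k | ∃ v : R × R, v ≠ 0 ∧ InL I q v ∧ H b v = k}

omit [IsDomain R] in
lemma Xq_le (I : Ideal R) (q : R ⧸ I) (v : R × R) (hv : v ≠ 0) (hL : InL I q v) :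
    Xq b I q ≤ H b v := by
  apply Nat.sInf_le
  exact ⟨v, hv, hL, rfl⟩

omit [IsDomain R] in
lemma Xq_mem (I : Ideal R) (z : R) (hz : z ≠ 0) (hzI : z ∈ I) (q : R ⧸ I) :
    ∃ v : R × R, v ≠ 0 ∧ InL I q v ∧ H b v = Xq b I q := by
  have hne : {k | ∃ v : R × R, v ≠ 0 ∧ InL I q v ∧ H b v = k}.Nonempty := by
    refine ⟨H b (z, 0), (z, 0), ?_, ?_, rfl⟩
    · intro h; exact hz (congrArg Prod.fst h)
    · unfold InL
      simp only [map_zero, zero_mul]
      exact Ideal.Quotient.eq_zero_iff_mem.2 hzI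
  exact Nat.sInf_mem hne

lemma lower_bound (_hd : 1 ≤ d) (hN : 2 ≤ N)
    (hnu : ¬ π ∣ (1 : R)) (hπ0 : π ≠ 0)
    (hdig : ∀ q : R, ∃ c : ℕ, c < N ∧ π ∣ q - (c : R))
    (h1 : ∀ x : R, x ≠ 0 → (d : ℝ) * Real.logb N (ht b x) ≤ φ x)
    {n : ℕ} (a : Fin n → Fin N) (t : ℝ)
    (ht' : t ∈ {t | ∃ s : ℕ → Fin N, (∀ i : Fin n, s i = a i) ∧ t ∈ sizes N π φ s}) :
    (d : ℝ) * Real.logb N (Xq b (Ideal.span {π ^ n}) (Ideal.Quotient.mk _ (val N π a))) ≤ t := by
  rw [finSet_eq N π φ hdig a] at ht'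
  obtain ⟨f, g, ⟨y, hy⟩, hfg, rfl⟩ := ht'
  have hg0 : g ≠ 0 := by
    rintro rfl
    apply hnu
    rw [zero_mul, zero_sub] at hy
    exact (dvd_neg.1 hy)
  have hv0 : ((f, g) : R × R) ≠ 0 := fun h => hg0 (congrArg Prod.snd h)
  have hL : InL (Ideal.span {π ^ n}) (Ideal.Quotient.mk _ (val N π a)) (f, g) := by
    unfold InL
    simp only
    rw [← map_mul, Ideal.Quotient.eq, Ideal.mem_span_singleton]
    exact hfg
  have hX := Xq_le b _ _ _ hv0 hL
  have hXpos : 0 < Xq b (Ideal.span {π ^ n}) (Ideal.Quotient.mk _ (val N π a)) := by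
    obtain ⟨v, hv, _, hvX⟩ := Xq_mem b (Ideal.span {π ^ n}) (π ^ n) (pow_ne_zero _ hπ0)
      (Ideal.mem_span_singleton_self _) (Ideal.Quotient.mk _ (val N π a))
    rw [← hvX]
    exact H_pos b hv
  have hN1 : (1:ℝ) < N := by exact_mod_cast (by omega : 1 < N)
  have hd0 : (0:ℝ) ≤ d := Nat.cast_nonneg d
  have hlog : (d : ℝ) * Real.logb N (Xq b (Ideal.span {π ^ n}) (Ideal.Quotient.mk _ (val N π a))) ≤
      (d : ℝ) * Real.logb N (H b (f, g)) := by
    apply mul_le_mul_of_nonneg_left _ hd0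
    apply Real.logb_le_logb_of_le hN1 (by exact_mod_cast hXpos) (by exact_mod_cast hX)
  refine hlog.trans ?_
  by_cases hc : ht b f ≤ ht b g
  · have : H b (f, g) = ht b g := max_eq_right hc
    rw [this]
    exact (h1 g hg0).trans (le_max_right _ _)
  · have : H b (f, g) = ht b f := max_eq_left (le_of_lt (not_le.1 hc))
    rw [this]
    have hf0 : f ≠ 0 := by
      rintro rfl
      rw [ht_zero] at hc
      omega
    exact (h1 f hf0).trans (le_max_left _ _)

lemma upper_bound (hd : 1 ≤ d) (hN : 2 ≤ N)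
    (hnu : ¬ π ∣ (1 : R)) (hπ0 : π ≠ 0)
    (hdig : ∀ q : R, ∃ c : ℕ, c < N ∧ π ∣ q - (c : R))
    (h0 : φ 0 = 0)
    (h1 : ∀ x : R, x ≠ 0 → (d : ℝ) * Real.logb N (ht b x) ≤ φ x)
    (h2 : ∀ x : R, x ≠ 0 → φ x ≤ (d : ℝ) * Real.logb N (ht b x) + d)
    {n : ℕ} (I : Ideal R) (hI : I = Ideal.span {π ^ n}) [Fintype (R ⧸ I)]
    (hcard : Fintype.card (R ⧸ I) = N ^ n)
    (a : Fin n → Fin N) :
    finComplexity N π φ a ≤ n - (d : ℝ) *
      Real.logb N (Xq b I (Ideal.Quotient.mk I (val N π a))) +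
      (d * Real.logb N (2 * KK b + 2 * N) + d * Real.logb N (8 * d) + d) := by
  classical
  set q := Ideal.Quotient.mk I (val N π a) with hq
  have hN1 : (1:ℝ) < N := by exact_mod_cast (by omega : 1 < N)
  have hd0 : (0:ℝ) ≤ d := Nat.cast_nonneg d
  have hπn : π ^ n ≠ 0 := pow_ne_zero _ hπ0
  have hπnI : π ^ n ∈ I := by rw [hI]; exact Ideal.mem_span_singleton_self _
  obtain ⟨v1, hv1, hv1L, hv1X⟩ := Xq_mem b I (π ^ n) hπn hπnI q
  have hXpos : 0 < Xq b I q := by rw [← hv1X]; exact H_pos b hv1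
  -- the threshold W
  have hexW : ∃ T : ℕ, ∃ v w : R × R, InL I q v ∧ InL I q w ∧ H b v ≤ T ∧ H b w ≤ T ∧
      v.1 * w.2 ≠ w.1 * v.2 := by
    refine ⟨max (H b (π ^ n, 0)) (H b (val N π a, 1)), (π ^ n, 0), (val N π a, 1), ?_, ?_,
      le_max_left _ _, le_max_right _ _, ?_⟩
    · unfold InL
      simp only [map_zero, zero_mul]
      exact Ideal.Quotient.eq_zero_iff_mem.2 hπnI
    · unfold InL
      simp only [map_one, one_mul]
      exact hq.symm ▸ rfl
    · simpa using hπn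
  set W := Nat.find hexW with hW
  obtain ⟨v, w, hvL, hwL, hvW, hwW, hvw⟩ := Nat.find_spec hexW
  rw [← hW] at hvW hwW
  have hW1 : 1 ≤ W := by
    by_contra hcon
    have hW0 : W = 0 := by omega
    rw [hW0] at hvW
    have : v = 0 := by
      by_contra hne
      have := H_pos b hne
      omega
    apply hvw
    rw [this]; simp
  have hline : ∀ v w, InL I q v → InL I q w → H b v ≤ W - 1 → H b w ≤ W - 1 →
      v.1 * w.2 = w.1 * v.2 := by
    intro v w hv hw hvT hwT
    by_contra hne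
    exact Nat.find_min hexW (m := W - 1) (by omega) ⟨v, w, hv, hw, hvT, hwT, hne⟩
  have hWX := WX_bound b hd I q W (Xq b I q) hXpos hW1
    (fun v hv hv0 => Xq_le b I q v hv0 hv) hline
  rw [hcard] at hWX
  obtain ⟨u, huL, huH, huπ⟩ := unit_vec b I q N π hdig W v w hvL hwL hvW hwW hvw
  have hu2 : u.2 ≠ 0 := by
    intro h
    rw [h, zero_sub] at huπ
    exact hnu (dvd_neg.1 huπ)
  have hu0 : u ≠ 0 := fun h => hu2 (by rw [h]; rfl)
  have hmem : max (φ u.1) (φ u.2) ∈
      {t | ∃ s : ℕ → Fin N, (∀ i : Fin n, s i = a i) ∧ t ∈ sizes N π φ s} := by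
    rw [finSet_eq N π φ hdig a]
    refine ⟨u.1, u.2, ⟨1, by rwa [mul_one]⟩, ?_, rfl⟩
    have h3 := huL
    unfold InL at h3
    rw [hq, ← map_mul, Ideal.Quotient.eq, hI, Ideal.mem_span_singleton] at h3
    exact h3
  have hbdd : BddBelow {t | ∃ s : ℕ → Fin N, (∀ i : Fin n, s i = a i) ∧ t ∈ sizes N π φ s} :=
    ⟨_, fun t ht' => lower_bound b N π φ hd hN hnu hπ0 hdig h1 a t ht'⟩
  have hle := csInf_le hbdd hmem
  have hHu : 0 < H b u := H_pos b hu0
  have hcomp : ∀ x : R, ht b x ≤ H b u → φ x ≤ (d : ℝ) * Real.logb N (H b u) + d := by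
    intro x hx
    by_cases hx0 : x = 0
    · rw [hx0, h0]
      have : 0 ≤ Real.logb N (H b u) := Real.logb_nonneg hN1 (by exact_mod_cast hHu)
      positivity
    · refine (h2 x hx0).trans ?_
      have h3 : Real.logb N (ht b x) ≤ Real.logb N (H b u) := by
        apply Real.logb_le_logb_of_le hN1 (by exact_mod_cast ht_pos b hx0) (by exact_mod_cast hx)
      have := mul_le_mul_of_nonneg_left h3 hd0
      linarith
  have hmax : max (φ u.1) (φ u.2) ≤ (d : ℝ) * Real.logb N (H b u) + d :=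
    max_le (hcomp _ (le_max_left _ _)) (hcomp _ (le_max_right _ _))
  have hKpos := KK_pos b
  have hlogu : Real.logb N (H b u) ≤ Real.logb N (2 * KK b + 2 * N) + Real.logb N W := by
    rw [← Real.logb_mul (by positivity) (by positivity)]
    apply Real.logb_le_logb_of_le hN1 (by exact_mod_cast hHu)
    exact_mod_cast huH
  have hlogW : (d : ℝ) * (Real.logb N W + Real.logb N (Xq b I q)) ≤
      d * Real.logb N (8 * d) + n := by
    have hX0 : (0:ℝ) < Xq b I q := by exact_mod_cast hXpos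
    have hW0 : (0:ℝ) < W := by exact_mod_cast hW1
    have hd1 : (0:ℝ) < d := by exact_mod_cast hd
    rw [← Real.logb_mul hW0.ne' hX0.ne', ← Real.logb_pow]
    have e1 : (n : ℝ) = Real.logb N ((N:ℝ) ^ n) := by
      rw [Real.logb_pow, Real.logb_self_eq_one hN1, mul_one]
    rw [← Real.logb_pow, e1, ← Real.logb_mul (by positivity) (by positivity)]
    apply Real.logb_le_logb_of_le hN1 (by positivity)
    exact_mod_cast hWX
  have hfin : finComplexity N π φ a ≤ max (φ u.1) (φ u.2) := hle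
  have h5 := mul_le_mul_of_nonneg_left hlogu hd0
  linarith

open Classical in
lemma count_X (I : Ideal R) [Fintype (R ⧸ I)] (z : R) (hz : z ≠ 0) (hzI : z ∈ I) (V : ℕ) :
    (Finset.univ.filter (fun q : R ⧸ I => (Xq b I q) ^ (2 * d) ≤ V)).card ≤
      (36 * KK b) ^ d * V := by
  by_cases hne : (Finset.univ.filter (fun q : R ⧸ I => (Xq b I q) ^ (2 * d) ≤ V)).Nonempty
  · obtain ⟨q0, hq0, hmax⟩ := Finset.exists_max_image _ (fun q => Xq b I q) hne
    rw [Finset.mem_filter] at hq0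
    have hpos : 1 ≤ Xq b I q0 := by
      obtain ⟨v, hv, _, hvX⟩ := Xq_mem b I z hz hzI q0
      rw [← hvX]; exact H_pos b hv
    have hsub : (Finset.univ.filter (fun q : R ⧸ I => (Xq b I q) ^ (2 * d) ≤ V)) ⊆
        (Finset.univ.filter (fun a : R ⧸ I => ∃ f g : R, (f ≠ 0 ∨ g ≠ 0) ∧ ht b f ≤ Xq b I q0 ∧
          ht b g ≤ Xq b I q0 ∧ Ideal.Quotient.mk I f = Ideal.Quotient.mk I g * a)) := by
      intro q hq
      have h1 := hmax q hq
      rw [Finset.mem_filter]
      obtain ⟨v, hv, hvL, hvX⟩ := Xq_mem b I z hz hzI q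
      refine ⟨Finset.mem_univ _, v.1, v.2, ?_, ?_, ?_, hvL⟩
      · by_contra hcon
        rw [not_or, not_not, not_not] at hcon
        exact hv (Prod.ext hcon.1 hcon.2)
      · refine (le_max_left _ _).trans (?_ : H b v ≤ _)
        rw [hvX]; exact h1
      · refine (le_max_right _ _).trans (?_ : H b v ≤ _)
        rw [hvX]; exact h1
    exact (Finset.card_le_card hsub).trans ((count_all b I _ hpos).trans
      (Nat.mul_le_mul_left _ hq0.2))
  · rw [Finset.not_nonempty_iff_eq_empty] at hne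
    rw [hne]; simp

lemma geom_le (N : ℕ) (hN : 2 ≤ N) (n : ℕ) :
    ∑ k ∈ Finset.range (n + 1), N ^ (n - k) ≤ 2 * N ^ n := by
  induction n with
  | zero => simp
  | succ n ih =>
    rw [Finset.sum_range_succ']
    have h1 : ∑ k ∈ Finset.range (n + 1), N ^ (n + 1 - (k + 1)) =
        ∑ k ∈ Finset.range (n + 1), N ^ (n - k) := by
      apply Finset.sum_congr rfl
      intro k _
      congr 1; omega
    rw [h1, Nat.sub_zero, pow_succ]
    have h2 : N ^ n * 2 ≤ N ^ n * N := Nat.mul_le_mul_left _ hN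
    omega

lemma log_count (N : ℕ) (hN : 2 ≤ N) (n Y : ℕ) (hY : 1 ≤ Y) :
    (n : ℝ) - Real.logb N Y ≤
      (((Finset.range (n + 1)).filter (fun k => Y ≤ N ^ (n - k))).card : ℝ) := by
  have hN1 : (1:ℝ) < N := by exact_mod_cast (by omega : 1 < N)
  have hc1 : Y ≤ N ^ Nat.clog N Y := Nat.le_pow_clog (by omega) Y
  have hlog : (Nat.clog N Y : ℝ) - 1 ≤ Real.logb N Y := by
    rcases Nat.eq_zero_or_pos (Nat.clog N Y) with h | h
    · rw [h]
      have : 0 ≤ Real.logb N Y := Real.logb_nonneg hN1 (by exact_mod_cast hY)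
      simp only [Nat.cast_zero]
      linarith
    · have hY1 : 1 < Y := by
        by_contra hcon
        have : Y = 1 := by omega
        rw [this] at h
        simp at h
      have h2 := Nat.pow_pred_clog_lt_self (by omega : 1 < N) hY1
      have h3 : Real.logb N ((N:ℝ) ^ ((Nat.clog N Y).pred)) ≤ Real.logb N Y := by
        apply Real.logb_le_logb_of_le hN1 (by positivity)
        exact_mod_cast h2.le
      rw [Real.logb_pow, Real.logb_self_eq_one hN1, mul_one] at h3
      have h4 : (((Nat.clog N Y).pred : ℕ) : ℝ) = (Nat.clog N Y : ℝ) - 1 := by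
        rw [Nat.pred_eq_sub_one, Nat.cast_sub h]; simp
      rw [h4] at h3
      exact h3
  have hsub : Finset.range (n + 1 - Nat.clog N Y) ⊆
      (Finset.range (n + 1)).filter (fun k => Y ≤ N ^ (n - k)) := by
    intro k hk
    rw [Finset.mem_range] at hk
    rw [Finset.mem_filter, Finset.mem_range]
    refine ⟨by omega, hc1.trans (Nat.pow_le_pow_right (by omega) (by omega))⟩
  have h5 := Finset.card_le_card hsub
  rw [Finset.card_range] at h5
  have h6 : (n : ℝ) + 1 - Nat.clog N Y ≤ ((n + 1 - Nat.clog N Y : ℕ) : ℝ) := by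
    have : n + 1 ≤ (n + 1 - Nat.clog N Y) + Nat.clog N Y := by omega
    have h7 : ((n + 1 : ℕ) : ℝ) ≤ ((n + 1 - Nat.clog N Y + Nat.clog N Y : ℕ) : ℝ) := by
      exact_mod_cast this
    push_cast at h7 ⊢
    linarith
  have h8 : ((n + 1 - Nat.clog N Y : ℕ) : ℝ) ≤
      (((Finset.range (n + 1)).filter (fun k => Y ≤ N ^ (n - k))).card : ℝ) := by
    exact_mod_cast h5
  linarith

lemma sum_log (hN : 2 ≤ N) (I : Ideal R) [Fintype (R ⧸ I)] (z : R) (hz : z ≠ 0) (hzI : z ∈ I)
    (n : ℕ) :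
    ∑ q : R ⧸ I, ((n : ℝ) - Real.logb N (((Xq b I q) ^ (2 * d) : ℕ) : ℝ)) ≤
      2 * (36 * KK b : ℝ) ^ d * (N : ℝ) ^ n := by
  classical
  have h1 : ∀ q ∈ (Finset.univ : Finset (R ⧸ I)),
      ((n : ℝ) - Real.logb N (((Xq b I q) ^ (2 * d) : ℕ) : ℝ)) ≤
      (((Finset.range (n + 1)).filter (fun k => (Xq b I q) ^ (2 * d) ≤ N ^ (n - k))).card : ℝ) := by
    intro q _
    apply log_count N hN n
    obtain ⟨v, hv, _, hvX⟩ := Xq_mem b I z hz hzI q
    rw [← hvX]
    exact Nat.one_le_pow _ _ (H_pos b hv)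
  refine (Finset.sum_le_sum h1).trans ?_
  have h2 : ∑ q : R ⧸ I,
      ((Finset.range (n + 1)).filter (fun k => (Xq b I q) ^ (2 * d) ≤ N ^ (n - k))).card =
      ∑ k ∈ Finset.range (n + 1),
        (Finset.univ.filter (fun q : R ⧸ I => (Xq b I q) ^ (2 * d) ≤ N ^ (n - k))).card := by
    simp only [Finset.card_filter]
    exact Finset.sum_comm
  have h3 : ∑ k ∈ Finset.range (n + 1),
        (Finset.univ.filter (fun q : R ⧸ I => (Xq b I q) ^ (2 * d) ≤ N ^ (n - k))).card ≤
        (36 * KK b) ^ d * (2 * N ^ n) := by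
    refine (Finset.sum_le_sum (fun k _ => count_X b I z hz hzI (N ^ (n - k)))).trans ?_
    rw [← Finset.mul_sum]
    exact Nat.mul_le_mul_left _ (geom_le N hN n)
  rw [← Nat.cast_sum, h2]
  have h4 : (((36 * KK b) ^ d * (2 * N ^ n) : ℕ) : ℝ) = 2 * (36 * KK b : ℝ) ^ d * (N : ℝ) ^ n := by
    push_cast; ring
  rw [← h4]
  exact_mod_cast h3

theorem main (hd : 1 ≤ d) (hN : 2 ≤ N) (hb : ∀ i, b i = π ^ (i : ℕ)) (ε : ℤ)
    (hε : ε * ε = 1) (hπ : π ^ d = (ε : R) * N) (h0 : φ 0 = 0)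
    (h1 : ∀ x : R, x ≠ 0 → (d : ℝ) * Real.logb N (ht b x) ≤ φ x)
    (h2 : ∀ x : R, x ≠ 0 → φ x ≤ (d : ℝ) * Real.logb N (ht b x) + d) :
    ∃ C : ℝ, ∀ n : ℕ, |E N π φ n - n / 2| ≤ C := by
  classical
  have hb0 : b ⟨0, hd⟩ = 1 := by rw [hb]; simp
  have hint : ∀ m : ℤ, (m : R) = 0 → m = 0 := by
    intro m hm
    have e1 : b.repr (m : R) ⟨0, hd⟩ = m := by
      have : (m : R) = m • b ⟨0, hd⟩ := by rw [hb0]; simp
      rw [this, map_smul]; simp
    rw [hm] at e1
    simpa using e1.symm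
  have hπN : π ∣ (N : R) := by
    have e1 : (N : R) = (ε : R) * π ^ d := by
      rw [hπ]
      have : ((ε * ε : ℤ) : R) = 1 := by rw [hε]; simp
      push_cast at this
      linear_combination (-(N : R)) * this
    rw [e1]
    exact Dvd.dvd.mul_left (dvd_pow_self π (by omega)) _
  have hndvd := N_dvd_of_dvd b N π hd hb ε hπ
  have hπ0 : π ≠ 0 := by
    rintro rfl
    rw [zero_dvd_iff] at hπN
    have := hint N (by exact_mod_cast hπN)
    omega
  have hnu : ¬ π ∣ (1 : R) := by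
    intro h
    have e1 := hndvd 1 (by simpa using h)
    have e2 := Int.le_of_dvd one_pos e1
    omega
  have hdig := dig b N π hd hb (by omega) hπN
  have hN1 : (1:ℝ) < N := by exact_mod_cast (by omega : 1 < N)
  refine ⟨|d * Real.logb N (2 * KK b + 2 * N) + d * Real.logb N (8 * d) + d| +
    (36 * KK b : ℝ) ^ d, ?_⟩
  intro n
  set C1 : ℝ := d * Real.logb N (2 * KK b + 2 * N) + d * Real.logb N (8 * d) + d with hC1
  set C2 : ℝ := (36 * KK b : ℝ) ^ d with hC2
  have hC2' : 0 ≤ C2 := by positivity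
  obtain ⟨I, hI⟩ : ∃ I : Ideal R, I = Ideal.span {π ^ n} := ⟨_, rfl⟩
  have hπn : π ^ n ≠ 0 := pow_ne_zero _ hπ0
  have hπnI : π ^ n ∈ I := by rw [hI]; exact Ideal.mem_span_singleton_self _
  have hbij : Function.Bijective (fun a : Fin n → Fin N => Ideal.Quotient.mk I (val N π a)) := by
    constructor
    · intro a a' haa
      simp only at haa
      rw [Ideal.Quotient.eq, hI, Ideal.mem_span_singleton] at haa
      exact val_inj N π hπ0 hndvd n a a' haa
    · intro q
      obtain ⟨x, rfl⟩ := Ideal.Quotient.mk_surjective q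
      obtain ⟨a, ha⟩ := val_surj N π hdig n x
      refine ⟨a, ?_⟩
      simp only
      rw [eq_comm, Ideal.Quotient.eq, hI, Ideal.mem_span_singleton]
      exact ha
  have : Finite (R ⧸ I) := Finite.of_surjective _ hbij.2
  have : Fintype (R ⧸ I) := Fintype.ofFinite _
  have hcard : Fintype.card (R ⧸ I) = N ^ n := by
    rw [← Fintype.card_of_bijective hbij]; simp
  have hNn : (0:ℝ) < (N:ℝ) ^ n := by positivity
  set y : R ⧸ I → ℝ := fun q => Real.logb N (((Xq b I q) ^ (2 * d) : ℕ) : ℝ) with hy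
  have hyX : ∀ q, (d : ℝ) * Real.logb N (Xq b I q) = y q / 2 := by
    intro q
    rw [hy]
    simp only
    push_cast
    rw [Real.logb_pow]
    push_cast; ring
  have hsum := sum_log b N hN I (π ^ n) hπn hπnI n
  have hsumconst : ∀ c : ℝ, ∑ _q : R ⧸ I, c = (N:ℝ) ^ n * c := by
    intro c
    rw [Finset.sum_const, Finset.card_univ, hcard]
    simp
  have hup : ∑ a : Fin n → Fin N, finComplexity N π φ a ≤ (N:ℝ) ^ n * (n / 2 + C2 + C1) := by
    have e1 : ∑ a : Fin n → Fin N, finComplexity N π φ a ≤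
        ∑ a : Fin n → Fin N, ((n:ℝ) - y (Ideal.Quotient.mk I (val N π a)) / 2 + C1) := by
      apply Finset.sum_le_sum
      intro a _
      have := upper_bound b N π φ hd hN hnu hπ0 hdig h0 h1 h2 I hI hcard a
      rw [hyX] at this
      exact this
    have e2 : ∑ a : Fin n → Fin N, ((n:ℝ) - y (Ideal.Quotient.mk I (val N π a)) / 2 + C1) =
        ∑ q : R ⧸ I, ((n:ℝ) - y q / 2 + C1) :=
      hbij.sum_comp (fun q => (n:ℝ) - y q / 2 + C1)
    have e3 : ∑ q : R ⧸ I, ((n:ℝ) - y q / 2 + C1) =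
        (N:ℝ) ^ n * (n / 2 + C1) + (1 / 2) * ∑ q : R ⧸ I, ((n:ℝ) - y q) := by
      rw [← hsumconst, Finset.mul_sum, ← Finset.sum_add_distrib]
      apply Finset.sum_congr rfl
      intro q _
      ring
    rw [e2, e3] at e1
    have e4 : (1 / 2 : ℝ) * ∑ q : R ⧸ I, ((n:ℝ) - y q) ≤ (N:ℝ) ^ n * C2 := by
      have : ∑ q : R ⧸ I, ((n:ℝ) - y q) ≤ 2 * C2 * (N:ℝ) ^ n := hsum
      linarith
    linarith
  have hlow : (N:ℝ) ^ n * (n / 2 - C2) ≤ ∑ a : Fin n → Fin N, finComplexity N π φ a := by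
    have e1 : ∑ a : Fin n → Fin N, (y (Ideal.Quotient.mk I (val N π a)) / 2) ≤
        ∑ a : Fin n → Fin N, finComplexity N π φ a := by
      apply Finset.sum_le_sum
      intro a _
      rw [← hyX]
      apply le_csInf
      · rw [finSet_eq N π φ hdig a]
        exact ⟨_, val N π a, 1, ⟨1, by simp⟩, by simp, rfl⟩
      · intro t ht'
        have := lower_bound b N π φ hd hN hnu hπ0 hdig h1 a t ht'
        rw [hI]
        exact this
    have e2 : ∑ a : Fin n → Fin N, (y (Ideal.Quotient.mk I (val N π a)) / 2) =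
        ∑ q : R ⧸ I, (y q / 2) :=
      hbij.sum_comp (fun q => y q / 2)
    have e3 : ∑ q : R ⧸ I, (y q / 2) =
        (N:ℝ) ^ n * (n / 2) - (1 / 2) * ∑ q : R ⧸ I, ((n:ℝ) - y q) := by
      rw [← hsumconst, Finset.mul_sum, ← Finset.sum_sub_distrib]
      apply Finset.sum_congr rfl
      intro q _
      ring
    rw [e2, e3] at e1
    have e4 : (1 / 2 : ℝ) * ∑ q : R ⧸ I, ((n:ℝ) - y q) ≤ (N:ℝ) ^ n * C2 := by
      have : ∑ q : R ⧸ I, ((n:ℝ) - y q) ≤ 2 * C2 * (N:ℝ) ^ n := hsum
      linarith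
    linarith
  have hE1 : E N π φ n ≤ n / 2 + C2 + C1 := by
    unfold E
    rw [div_le_iff₀ hNn]
    linarith
  have hE2 : n / 2 - C2 ≤ E N π φ n := by
    unfold E
    rw [le_div_iff₀ hNn]
    linarith
  have hC1' := le_abs_self C1
  have hC1'' := abs_nonneg C1
  rw [abs_le]
  constructor <;> linarith

/-- the infimum defining the complexity is a minimum -/
lemma least (hd : 1 ≤ d) (hN : 2 ≤ N)
    (hnu : ¬ π ∣ (1 : R)) (hπ0 : π ≠ 0)
    (hdig : ∀ q : R, ∃ c : ℕ, c < N ∧ π ∣ q - (c : R))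
    (h1 : ∀ x : R, x ≠ 0 → (d : ℝ) * Real.logb N (ht b x) ≤ φ x)
    {n : ℕ} (a : Fin n → Fin N) :
    IsLeast {t | ∃ s : ℕ → Fin N, (∀ i : Fin n, s i = a i) ∧ t ∈ sizes N π φ s}
      (finComplexity N π φ a) := by
  classical
  set S := {t | ∃ s : ℕ → Fin N, (∀ i : Fin n, s i = a i) ∧ t ∈ sizes N π φ s} with hS
  have hN1 : (1:ℝ) < N := by exact_mod_cast (by omega : 1 < N)
  have hd1 : (0:ℝ) < d := by exact_mod_cast hd
  have hS2 := finSet_eq N π φ hdig a
  rw [← hS] at hS2
  obtain ⟨t0, ht0⟩ : S.Nonempty := by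
    rw [hS2]
    exact ⟨_, val N π a, 1, ⟨1, by simp⟩, by simp, rfl⟩
  have hfin : (S ∩ Set.Iic t0).Finite := by
    set B : ℕ := ⌈(N:ℝ) ^ (t0 / d)⌉₊ with hB
    apply Set.Finite.subset ((ball2 b B).image (fun v => max (φ v.1) (φ v.2))).finite_toSet
    rintro t ⟨htS, htle⟩
    rw [hS2] at htS
    obtain ⟨f, g, _, _, rfl⟩ := htS
    rw [Set.mem_Iic] at htle
    rw [Finset.coe_image]
    refine ⟨(f, g), ?_, rfl⟩
    rw [Finset.mem_coe, mem_ball2]
    have hx : ∀ x : R, φ x ≤ t0 → ht b x ≤ B := by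
      intro x hx
      by_cases hx0 : x = 0
      · rw [hx0, ht_zero]; exact Nat.zero_le _
      · have e1 := (h1 x hx0).trans hx
        have hpos : (0:ℝ) < ht b x := by exact_mod_cast ht_pos b hx0
        have e2 : Real.logb N (ht b x) ≤ t0 / d := by
          rw [le_div_iff₀ hd1]; linarith
        rw [Real.logb_le_iff_le_rpow hN1 hpos] at e2
        have e3 : (ht b x : ℝ) ≤ B := e2.trans (Nat.le_ceil _)
        exact_mod_cast e3
    exact max_le (hx f ((le_max_left _ _).trans htle)) (hx g ((le_max_right _ _).trans htle))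
  have hmem := Set.Nonempty.csInf_mem (⟨t0, ht0, Set.mem_Iic.2 le_rfl⟩ : (S ∩ Set.Iic t0).Nonempty) hfin
  have hleast : IsLeast S (sInf (S ∩ Set.Iic t0)) := by
    refine ⟨hmem.1, ?_⟩
    intro t ht'
    by_cases hc : t ≤ t0
    · exact csInf_le hfin.bddBelow ⟨ht', hc⟩
    · exact (hmem.2 : _ ≤ t0).trans (le_of_lt (not_le.1 hc))
  have heq : finComplexity N π φ a = sInf (S ∩ Set.Iic t0) := hleast.csInf_eq
  rw [heq]
  exact hleast

/-- common form of both cases -/
theorem main' (hd : 1 ≤ d) (hN : 2 ≤ N) (hb : ∀ i, b i = π ^ (i : ℕ)) (ε : ℤ)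
    (hε : ε * ε = 1) (hπ : π ^ d = (ε : R) * N) (h0 : φ 0 = 0)
    (h1 : ∀ x : R, x ≠ 0 → (d : ℝ) * Real.logb N (ht b x) ≤ φ x)
    (h2 : ∀ x : R, x ≠ 0 → φ x ≤ (d : ℝ) * Real.logb N (ht b x) + d) :
    (∀ (n : ℕ) (a : Fin n → Fin N),
      IsLeast {t | ∃ s : ℕ → Fin N, (∀ i : Fin n, s i = a i) ∧ t ∈ sizes N π φ s}
        (finComplexity N π φ a)) ∧
    ∃ C : ℝ, ∀ n : ℕ, |E N π φ n - n / 2| ≤ C := by
  refine ⟨?_, main b N π φ hd hN hb ε hε hπ h0 h1 h2⟩
  have hb0 : b ⟨0, hd⟩ = 1 := by rw [hb]; simp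
  have hint : ∀ m : ℤ, (m : R) = 0 → m = 0 := by
    intro m hm
    have e1 : b.repr (m : R) ⟨0, hd⟩ = m := by
      have : (m : R) = m • b ⟨0, hd⟩ := by rw [hb0]; simp
      rw [this, map_smul]; simp
    rw [hm] at e1
    simpa using e1.symm
  have hπN : π ∣ (N : R) := by
    have e1 : (N : R) = (ε : R) * π ^ d := by
      rw [hπ]
      have : ((ε * ε : ℤ) : R) = 1 := by rw [hε]; simp
      push_cast at this
      linear_combination (-(N : R)) * this
    rw [e1]
    exact Dvd.dvd.mul_left (dvd_pow_self π (by omega)) _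
  have hndvd := N_dvd_of_dvd b N π hd hb ε hπ
  have hπ0 : π ≠ 0 := by
    rintro rfl
    rw [zero_dvd_iff] at hπN
    have := hint N (by exact_mod_cast hπN)
    omega
  have hnu : ¬ π ∣ (1 : R) := by
    intro h
    have e1 := hndvd 1 (by simpa using h)
    have e2 := Int.le_of_dvd one_pos e1
    omega
  intro n a
  exact least b N π φ hd hN hnu hπ0 (dig b N π hd hb (by omega) hπN) h1 a

end Average

section Final

/-- the size function of case (i): `φ(u + vπ) = log_N (u² + N v²)`. -/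
noncomputable def phi1 {R : Type*} [CommRing R] (N : ℕ) (b : Basis (Fin 2) ℤ R) (x : R) : ℝ :=
  Real.logb N (((b.repr x 0 : ℤ) : ℝ) ^ 2 + N * ((b.repr x 1 : ℤ) : ℝ) ^ 2)

/-- the size function of case (ii): `φ(∑ uᵢ πⁱ) = max (d log_N |uᵢ| + i)`, the maximum over the
`i` with `uᵢ ≠ 0` (and `φ(0) = 0`). -/
noncomputable def phi2 {R : Type*} [CommRing R] {d : ℕ} (N : ℕ) (b : Basis (Fin d) ℤ R) (x : R) :
    ℝ :=
  ⨆ i : {i : Fin d // b.repr x i ≠ 0},
    ((d : ℝ) * Real.logb N |((b.repr x i.1 : ℤ) : ℝ)| + ((i.1 : ℕ) : ℝ))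

lemma exists_coord {R : Type*} [CommRing R] {d : ℕ} (b : Basis (Fin d) ℤ R) (hd : 1 ≤ d) (x : R) :
    ∃ i, (b.repr x i).natAbs = ht b x := by
  have : Nonempty (Fin d) := ⟨⟨0, hd⟩⟩
  obtain ⟨i, _, hi⟩ := Finset.exists_mem_eq_sup (Finset.univ : Finset (Fin d))
    Finset.univ_nonempty (fun i => (b.repr x i).natAbs)
  exact ⟨i, hi.symm⟩

lemma phi2_zero {R : Type*} [CommRing R] {d : ℕ} (N : ℕ) (b : Basis (Fin d) ℤ R) :
    phi2 N b 0 = 0 := by
  unfold phi2
  have : IsEmpty {i : Fin d // b.repr 0 i ≠ 0} := ⟨fun i => i.2 (by simp)⟩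
  exact Real.iSup_of_isEmpty _

lemma phi2_lower {R : Type*} [CommRing R] {d : ℕ} (N : ℕ) (b : Basis (Fin d) ℤ R)
    (hd : 1 ≤ d) (x : R) (hx : x ≠ 0) :
    (d : ℝ) * Real.logb N (ht b x) ≤ phi2 N b x := by
  obtain ⟨i, hi⟩ := exists_coord b hd x
  have hi0 : b.repr x i ≠ 0 := by
    intro h
    rw [h] at hi
    have := ht_pos b hx
    simp only [Int.natAbs_zero] at hi
    omega
  have h1 : ((ht b x : ℕ) : ℝ) = |((b.repr x i : ℤ) : ℝ)| := by
    rw [← hi, Nat.cast_natAbs]; simp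
  unfold phi2
  refine le_trans ?_ (le_ciSup (Set.finite_range _).bddAbove (⟨i, hi0⟩ : {i // b.repr x i ≠ 0}))
  rw [h1]
  simp

lemma phi2_upper {R : Type*} [CommRing R] {d : ℕ} (N : ℕ) (hN : 2 ≤ N) (b : Basis (Fin d) ℤ R)
    (hd : 1 ≤ d) (x : R) (hx : x ≠ 0) :
    phi2 N b x ≤ (d : ℝ) * Real.logb N (ht b x) + d := by
  have hN1 : (1:ℝ) < N := by exact_mod_cast (by omega : 1 < N)
  obtain ⟨i, hi⟩ := exists_coord b hd x
  have hi0 : b.repr x i ≠ 0 := by
    intro h
    rw [h] at hi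
    have := ht_pos b hx
    simp only [Int.natAbs_zero] at hi
    omega
  have : Nonempty {i // b.repr x i ≠ 0} := ⟨⟨i, hi0⟩⟩
  unfold phi2
  apply ciSup_le
  rintro ⟨j, hj⟩
  simp only
  have h1 : |((b.repr x j : ℤ) : ℝ)| ≤ (ht b x : ℝ) := by
    have h2 := coord_le b x j
    have h3 : (((b.repr x j).natAbs : ℕ) : ℝ) = |((b.repr x j : ℤ) : ℝ)| := by
      rw [Nat.cast_natAbs]; simp
    rw [← h3]
    exact_mod_cast h2
  have h2 : Real.logb N |((b.repr x j : ℤ) : ℝ)| ≤ Real.logb N (ht b x) := by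
    apply Real.logb_le_logb_of_le hN1 _ h1
    rw [abs_pos]
    exact_mod_cast hj
  have h3 : ((j : ℕ) : ℝ) ≤ d := by exact_mod_cast j.2.le
  have h4 := mul_le_mul_of_nonneg_left h2 (Nat.cast_nonneg d : (0:ℝ) ≤ d)
  linarith

lemma phi1_bounds {R : Type*} [CommRing R] (N : ℕ) (hN : 2 ≤ N) (b : Basis (Fin 2) ℤ R)
    (x : R) (hx : x ≠ 0) :
    ((2 : ℕ) : ℝ) * Real.logb N (ht b x) ≤ phi1 N b x ∧
    phi1 N b x ≤ ((2 : ℕ) : ℝ) * Real.logb N (ht b x) + ((2 : ℕ) : ℝ) := by
  have hN1 : (1:ℝ) < N := by exact_mod_cast (by omega : 1 < N)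
  have hN2 : (2:ℝ) ≤ N := by exact_mod_cast hN
  have hpos : (0:ℝ) < ht b x := by exact_mod_cast ht_pos b hx
  have hcoord : ∀ j : Fin 2, ((b.repr x j : ℤ) : ℝ) ^ 2 ≤ (ht b x : ℝ) ^ 2 := by
    intro j
    have h2 := coord_le b x j
    have h3 : (((b.repr x j).natAbs : ℕ) : ℝ) = |((b.repr x j : ℤ) : ℝ)| := by
      rw [Nat.cast_natAbs]; simp
    rw [← sq_abs, ← h3]
    have h4 : (((b.repr x j).natAbs : ℕ) : ℝ) ≤ (ht b x : ℝ) := by exact_mod_cast h2
    have h5 : (0:ℝ) ≤ (((b.repr x j).natAbs : ℕ) : ℝ) := Nat.cast_nonneg _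
    nlinarith
  have hlow : (ht b x : ℝ) ^ 2 ≤
      ((b.repr x 0 : ℤ) : ℝ) ^ 2 + N * ((b.repr x 1 : ℤ) : ℝ) ^ 2 := by
    obtain ⟨i, hi⟩ := exists_coord b (by norm_num) x
    have h3 : (ht b x : ℝ) ^ 2 = ((b.repr x i : ℤ) : ℝ) ^ 2 := by
      rw [← sq_abs ((b.repr x i : ℤ) : ℝ), ← hi, Nat.cast_natAbs]; simp
    rw [h3]
    have e0 : (0:ℝ) ≤ ((b.repr x 0 : ℤ) : ℝ) ^ 2 := sq_nonneg _
    have e1 : (0:ℝ) ≤ ((b.repr x 1 : ℤ) : ℝ) ^ 2 := sq_nonneg _
    fin_cases i
    · simp only [Fin.zero_eta]; nlinarith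
    · simp only [Fin.mk_one]; nlinarith
  have hup : ((b.repr x 0 : ℤ) : ℝ) ^ 2 + N * ((b.repr x 1 : ℤ) : ℝ) ^ 2 ≤
      (N : ℝ) ^ 2 * (ht b x : ℝ) ^ 2 := by
    have e0 := hcoord 0
    have e1 := hcoord 1
    have e2 : (0:ℝ) < (ht b x : ℝ) ^ 2 := by positivity
    have e3 : (1:ℝ) + N ≤ (N:ℝ) ^ 2 := by nlinarith
    calc ((b.repr x 0 : ℤ) : ℝ) ^ 2 + N * ((b.repr x 1 : ℤ) : ℝ) ^ 2
        ≤ (ht b x : ℝ) ^ 2 + N * (ht b x : ℝ) ^ 2 := by nlinarith
      _ = (1 + N) * (ht b x : ℝ) ^ 2 := by ring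
      _ ≤ (N : ℝ) ^ 2 * (ht b x : ℝ) ^ 2 := mul_le_mul_of_nonneg_right e3 e2.le
  have hsq : (0:ℝ) < (ht b x : ℝ) ^ 2 := by positivity
  unfold phi1
  constructor
  · rw [← Real.logb_pow]
    exact Real.logb_le_logb_of_le hN1 hsq hlow
  · have h5 := Real.logb_le_logb_of_le hN1 (lt_of_lt_of_le hsq hlow) hup
    rw [Real.logb_mul (by positivity) (by positivity), Real.logb_pow, Real.logb_pow,
      Real.logb_self_eq_one hN1] at h5
    linarith

/-- **Average finite `π`-adic complexity.**  In case (i) and in case (ii) the average of the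
`π`-adic complexity over all sequences of length `n` is `n / 2 + O(1)`; moreover the infimum in the
definition of the complexity is attained. -/
theorem result :
    (∀ (R : Type) [CommRing R] [IsDomain R] (N : ℕ) (π : R) (b : Basis (Fin 2) ℤ R),
      2 ≤ N → (∀ i, b i = π ^ (i : ℕ)) → π ^ 2 = -(N : R) →
      (∀ (n : ℕ) (a : Fin n → Fin N),
        IsLeast {t | ∃ s : ℕ → Fin N, (∀ i : Fin n, s i = a i) ∧ t ∈ sizes N π (phi1 N b) s}
          (finComplexity N π (phi1 N b) a)) ∧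
      ∃ C : ℝ, ∀ n : ℕ, |E N π (phi1 N b) n - n / 2| ≤ C) ∧
    (∀ (R : Type) [CommRing R] [IsDomain R] (N d : ℕ) (π : R) (b : Basis (Fin d) ℤ R),
      2 ≤ N → 1 ≤ d → (∀ i, b i = π ^ (i : ℕ)) → π ^ d = (N : R) →
      (∀ (n : ℕ) (a : Fin n → Fin N),
        IsLeast {t | ∃ s : ℕ → Fin N, (∀ i : Fin n, s i = a i) ∧ t ∈ sizes N π (phi2 N b) s}
          (finComplexity N π (phi2 N b) a)) ∧
      ∃ C : ℝ, ∀ n : ℕ, |E N π (phi2 N b) n - n / 2| ≤ C) := by
  constructor
  · intro R _ _ N π b hN hb hπ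
    apply main' b N π (phi1 N b) (by norm_num) hN hb (-1) (by norm_num)
    · rw [hπ]; push_cast; ring
    · simp [phi1]
    · intro x hx; exact (phi1_bounds N hN b x hx).1
    · intro x hx; exact (phi1_bounds N hN b x hx).2
  · intro R _ _ N d π b hN hd hb hπ
    apply main' b N π (phi2 N b) hd hN hb 1 (by norm_num)
    · rw [hπ]; push_cast; ring
    · exact phi2_zero N b
    · intro x hx; exact phi2_lower N b hd x hx
    · intro x hx; exact phi2_upper N hN b hd x hx

end Final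

end Pool.Agent.Results.MP_cc6759_lc.AverageHalf
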